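import Pool.Agent.H6.RCQ.Defs

/-!
# Project RCQ: statements, part 2 (Case A)
-/

set_option autoImplicit false

namespace Pool.Agent.H6.RCQ

open Pool.Agent.H39.RC
open Classical

variable {V : Type}

/-- AS: symmetry of the setting -/
def ASStmt : Prop := ∀ (V : Type) (G : SimpleGraph V) (p : ℕ) (lab : V → V → Fin p)
  (R : Finset V) (x y : V), CA p G lab R x y → CA p G lab R y x ∧ CN G R y x = CN G R x y ∧
  PP G R y x = PP G R x y ∧ NN G R y x = NN G R x y ∧ FF G R y x = FF G R x y ∧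
  (∀ w a, At G R y x w a ↔ At G R x y w a) ∧ Pol G {x} {y} (CN G R x y)

/-- AC: the partition of `R` -/
def ACStmt : Prop := ∀ (V : Type) (G : SimpleGraph V) (p : ℕ) (lab : V → V → Fin p)
  (R : Finset V) (x y : V), CA p G lab R x y →
  (∀ r ∈ R, r ≠ x → r ≠ y → G.Adj x r ∨ G.Adj y r) ∧
  R.card = ir R x + ir R y + (CN G R x y).card + (PB G R x y).card + (PB G R y x).card

/-- AB: private neighbours are numerous -/
def ABStmt : Prop := ∀ (V : Type) (G : SimpleGraph V) (p : ℕ) (lab : V → V → Fin p)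
  (R : Finset V) (x y : V), CA p G lab R x y → p ≤ (PB G R x y).card ∧ p ≤ (PB G R y x).card

/-- AL: how private neighbours are linked -/
def ALStmt : Prop := ∀ (V : Type) (G : SimpleGraph V) (p : ℕ) (lab : V → V → Fin p)
  (R : Finset V) (x y : V), CA p G lab R x y → ∀ b ∈ PB G R x y, ∀ e ∈ PB G R y x,
  (∀ a, At G R x y b a ↔ At G R x y e a) ∨
  ∃ h ∈ CN G R x y, G.Adj b h ∧ G.Adj h e ∧ At G R x y b h ∧ At G R x y e h

/-- AK: two common neighbours, adjacent to all of two private neighbours of `x` -/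
def AKStmt : Prop := ∀ (V : Type) (G : SimpleGraph V) (p : ℕ) (lab : V → V → Fin p)
  (R : Finset V) (x y : V), CA p G lab R x y → ∀ a1 ∈ CN G R x y, ∀ a2 ∈ CN G R x y, a1 ≠ a2 →
  ∀ b ∈ PB G R x y, ∀ b' ∈ PB G R x y, b ≠ b' →
  G.Adj b a1 → G.Adj b a2 → G.Adj b' a1 → G.Adj b' a2 → False

/-- AZ: the centre: if some common neighbour is attached to a private neighbour, then one of them
is attached to all private neighbours -/
def AZStmt : Prop := ∀ (V : Type) (G : SimpleGraph V) (p : ℕ) (lab : V → V → Fin p)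
  (R : Finset V) (x y : V), CA p G lab R x y → (PP G R x y).Nonempty →
  ∃ z ∈ CN G R x y, ∀ w, (w ∈ PB G R x y ∨ w ∈ PB G R y x) → At G R x y w z

/-- AT1: type I -/
def TyI (G : SimpleGraph V) (R : Finset V) (x y : V) : Prop :=
  (PP G R x y).card ≤ 2 ∧ (NN G R x y).card ≤ 4 ∧
  ((PP G R x y).card ≤ 1 → (NN G R x y).card ≤ 3)

/-- AT2: type II -/
def TyII (G : SimpleGraph V) (R : Finset V) (x y : V) : Prop :=
  (NN G R x y).card ≤ 5 ∧ ∃ a1 a2 a3, PP G R x y = {a1, a2, a3} ∧ a1 ≠ a2 ∧ a1 ≠ a3 ∧ a2 ≠ a3 ∧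
  EJ G {x} {y} (CN G R x y) a1 a2 ∧ EJ G {x} {y} (CN G R x y) a2 a3 ∧
  (∀ w, (w ∈ PB G R x y ∨ w ∈ PB G R y x) → At G R x y w a2 ∧
    ¬ (At G R x y w a1 ∧ At G R x y w a3)) ∧
  ((∀ b ∈ PB G R x y, G.Adj b a2) ∨ (∀ e ∈ PB G R y x, G.Adj e a2))

/-- AT: the two types -/
def ATStmt : Prop := ∀ (V : Type) (G : SimpleGraph V) (p : ℕ) (lab : V → V → Fin p)
  (R : Finset V) (x y : V), CA p G lab R x y → TyI G R x y ∨ TyII G R x y

/-- AKEY: the key inequality -/
def AKEYStmt : Prop := ∀ (V : Type) (G : SimpleGraph V) (p : ℕ) (lab : V → V → Fin p)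
  (R : Finset V) (x y : V), CA p G lab R x y → ∀ k m : Fin p,
  ((PB G R x y).filter (fun b => lab x b = k)).card +
    ((PB G R y x).filter (fun e => lab y e = m)).card ≤ 3 * p + 1 ∧
  (((PB G R x y).filter (fun b => lab x b = k)).card +
    ((PB G R y x).filter (fun e => lab y e = m)).card = 3 * p + 1 →
    ∃ g ∈ (PB G R x y).filter (fun b => lab x b = k) ∪ (PB G R y x).filter (fun e => lab y e = m),
    ∀ w ∈ (PB G R x y).filter (fun b => lab x b = k) ∪ (PB G R y x).filter (fun e => lab y e = m),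
    w ≠ g → G.Adj g w)

/-- AF: far common neighbours are linked to private neighbours through `x` and `y` only -/
def AFStmt : Prop := ∀ (V : Type) (G : SimpleGraph V) (p : ℕ) (lab : V → V → Fin p)
  (R : Finset V) (x y : V), CA p G lab R x y → ∀ a ∈ FF G R x y,
  (∀ b ∈ PB G R x y, lab x a ≠ lab x b) ∧ (∀ e ∈ PB G R y x, lab y a ≠ lab y e)

/-- AE: cells -/
def AEStmt : Prop := ∀ (V : Type) (G : SimpleGraph V) (p : ℕ) (lab : V → V → Fin p)
  (R : Finset V) (x y : V), CA p G lab R x y → ∀ Z : Finset V,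
  (Z ⊆ FF G R x y ∨ (Z ⊆ CN G R x y ∧ 6 ≤ (CN G R x y).card)) →
  (∀ a ∈ Z, ∀ b ∈ Z, lab x a = lab x b ∧ lab y a = lab y b) → Z.card ≤ 3

/-- AFF: the number of far common neighbours -/
def AFFStmt : Prop := ∀ (V : Type) (G : SimpleGraph V) (p : ℕ) (lab : V → V → Fin p)
  (R : Finset V) (x y : V), CA p G lab R x y →
  (FF G R x y).card ≤ 3 * ((p - ((PB G R x y).image (fun b => lab x b)).card) *
    (p - ((PB G R y x).image (fun e => lab y e)).card))

/-- A5: if the maximum codegree is five, degrees are at most `6 p` -/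
def A5Stmt : Prop := ∀ (V : Type) (G : SimpleGraph V) (p : ℕ) (lab : V → V → Fin p)
  (R : Finset V) (x y : V), CA p G lab R x y → (CN G R x y).card = 5 → (D G R x).card ≤ 6 * p

/-- AN0: arithmetic of Case A for `p ≥ 3` -/
def AN0Stmt : Prop := ∀ (p β γ b e B E F : ℕ), 3 ≤ p → 1 ≤ β → 1 ≤ γ → β ≤ p - 1 → γ ≤ p - 1 →
  B ≤ β * b → E ≤ γ * e → b + e ≤ 3 * p + 1 → p ≤ B → p ≤ E → F ≤ 3 * ((p - β) * (p - γ)) →
  7 + F + B + E ≤ 3 * p ^ 2 + p + 1

/-- A3P: Case A for `p ≥ 3` -/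
def A3PStmt : Prop := ∀ (V : Type) (G : SimpleGraph V) (p : ℕ) (lab : V → V → Fin p)
  (R : Finset V) (x y : V), CA p G lab R x y → 3 ≤ p → False

/-- A2I: Case A for `p = 2`, type I -/
def A2IStmt : Prop := ∀ (V : Type) (G : SimpleGraph V) (lab : V → V → Fin 2)
  (R : Finset V) (x y : V), CA 2 G lab R x y → TyI G R x y → False

/-- A2F: Case A for `p = 2`, type II, with far common neighbours -/
def A2FStmt : Prop := ∀ (V : Type) (G : SimpleGraph V) (lab : V → V → Fin 2)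
  (R : Finset V) (x y : V), CA 2 G lab R x y → TyII G R x y → (FF G R x y).Nonempty → False

/-- A2N: Case A for `p = 2`, type II, without far common neighbours, some private neighbour of `x`
not adjacent to the centre -/
def A2NStmt : Prop := ∀ (V : Type) (G : SimpleGraph V) (lab : V → V → Fin 2)
  (R : Finset V) (x y : V), CA 2 G lab R x y → FF G R x y = ∅ → ∀ a1 a2 a3,
  PP G R x y = {a1, a2, a3} → a1 ≠ a2 → a1 ≠ a3 → a2 ≠ a3 →
  EJ G {x} {y} (CN G R x y) a1 a2 → EJ G {x} {y} (CN G R x y) a2 a3 →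
  (∀ w, (w ∈ PB G R x y ∨ w ∈ PB G R y x) → At G R x y w a2 ∧
    ¬ (At G R x y w a1 ∧ At G R x y w a3)) →
  (∀ e ∈ PB G R y x, G.Adj e a2) → (∃ b ∈ PB G R x y, ¬ G.Adj b a2) → False

/-- A2B: the same, all private neighbours adjacent to the centre -/
def A2BStmt : Prop := ∀ (V : Type) (G : SimpleGraph V) (lab : V → V → Fin 2)
  (R : Finset V) (x y : V), CA 2 G lab R x y → FF G R x y = ∅ → ∀ a1 a2 a3,
  PP G R x y = {a1, a2, a3} → a1 ≠ a2 → a1 ≠ a3 → a2 ≠ a3 →
  EJ G {x} {y} (CN G R x y) a1 a2 → EJ G {x} {y} (CN G R x y) a2 a3 →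
  (∀ w, (w ∈ PB G R x y ∨ w ∈ PB G R y x) → At G R x y w a2 ∧
    ¬ (At G R x y w a1 ∧ At G R x y w a3)) →
  (∀ e ∈ PB G R y x, G.Adj e a2) → (∀ b ∈ PB G R x y, G.Adj b a2) → False

/-- A: Case A is impossible -/
def AStmt : Prop := ∀ (V : Type) (G : SimpleGraph V) (p : ℕ) (lab : V → V → Fin p)
  (R : Finset V) (x y : V), ¬ CA p G lab R x y

end Pool.Agent.H6.RCQ
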