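import Pool.Agent.H6.RCQ.Stmts1

/-!
# Project RCQ: statements, part 3 (Case B: large degrees)
-/

set_option autoImplicit false

namespace Pool.Agent.H6.RCQ

open Pool.Agent.H39.RC
open Classical

variable {V : Type}

/-- GL: two non-adjacent vertices linked to all of `Dx` -/
def GLStmt : Prop := ∀ (V : Type) (G : SimpleGraph V) (Dx : Finset V) (x u v : V), PG G →
  x ≠ u → x ≠ v → u ≠ v → ¬ G.Adj u v → u ∉ Dx → v ∉ Dx → (∀ t ∈ Dx, G.Adj x t) →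
  (∀ t ∈ Dx, Rch G {x} u t) → (∀ t ∈ Dx, Rch G {x} v t) → Dx.Nonempty →
  (∃ t ∈ Dx, ∃ t' ∈ Dx, Bad G x u v t ∧ Bad G x u v t' ∧ t ≠ t' ∧ ¬ G.Adj t t' ∧
    ∀ s ∈ Dx, s = t ∨ G.Adj t s ∨ s = t' ∨ G.Adj t' s) ∨
  (∃ c c', c ≠ x ∧ G.Adj u c ∧ G.Adj v c ∧ c' ≠ x ∧ G.Adj u c' ∧ G.Adj v c' ∧
    ∀ s ∈ Dx, s = c ∨ G.Adj c s ∨ s = c' ∨ G.Adj c' s) ∨
  (∃ c, ∃ t ∈ Dx, c ≠ x ∧ G.Adj u c ∧ G.Adj v c ∧ Bad G x u v t ∧
    ∀ s ∈ Dx, s = c ∨ G.Adj c s ∨ s = t ∨ G.Adj t s) ∨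
  (∃ t ∈ Dx, Bad G x u v t ∧ ∀ s ∈ Dx, s = t ∨ G.Adj t s)

/-- GC: the consequence of GL for degrees -/
def GCStmt : Prop := ∀ (V : Type) (G : SimpleGraph V) (R : Finset V) (x : V), Lf G R →
  (D G R x).Nonempty → (∃ u ∈ U G R x, ∃ v ∈ U G R x, u ≠ v ∧ ¬ G.Adj u v) →
  ∃ z z', z ≠ x ∧ z' ≠ x ∧ ∀ s ∈ D G R x, s ∈ CC G R x z ∨ s ∈ CC G R x z'

/-- LF: labels can be forgotten -/
def LFStmt : Prop := ∀ (V : Type) (G : SimpleGraph V) (p : ℕ) (lab : V → V → Fin p)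
  (R : Finset V), Cfg p G lab R → Lf G R

/-- B6P: classes have at most six elements, so degrees are at most `6 p` -/
def B6PStmt : Prop := ∀ (V : Type) (G : SimpleGraph V) (p : ℕ) (lab : V → V → Fin p)
  (R : Finset V), CB p G lab R → ∀ x, (D G R x).card ≤ 6 * p ∧ ∀ l : Fin p,
  ((D G R x).filter (fun v => lab x v = l)).card ≤ 6 ∧
  (((D G R x).filter (fun v => lab x v = l)).card = 6 →
    Six G ((D G R x).filter (fun v => lab x v = l)))

/-- B12: two classes with six elements -/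
def B12Stmt : Prop := ∀ (V : Type) (G : SimpleGraph V) (R : Finset V) (x : V) (M M' : Finset V),
  Lf G R → Co4 G R → M ⊆ D G R x → M' ⊆ D G R x → Disjoint M M' → M.card = 6 → M'.card = 6 →
  Six G M → Six G M' → (U G R x).Nonempty → False

/-- BK5: four pairwise adjacent vertices of `R` not adjacent to `x ∈ R` -/
def BK5Stmt : Prop := ∀ (V : Type) (G : SimpleGraph V) (R : Finset V) (x : V), Lf G R → x ∈ R →
  (∀ u ∈ U G R x, ∀ v ∈ U G R x, u ≠ v → G.Adj u v) → (U G R x).card ≤ 3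

/-- B10: degrees are at most ten, and non-neighbourhoods are not cliques -/
def B10Stmt : Prop := ∀ (V : Type) (G : SimpleGraph V) (p : ℕ) (lab : V → V → Fin p)
  (R : Finset V), CB p G lab R → ∀ x, (D G R x).card ≤ 10 ∧
  ∃ u ∈ U G R x, ∃ v ∈ U G R x, u ≠ v ∧ ¬ G.Adj u v

/-! ### Pairs with closed codegree at least four -/

/-- RC: counting with respect to two poles -/
def RCStmt : Prop := ∀ (V : Type) (G : SimpleGraph V) (R : Finset V) (x c : V), x ≠ c →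
  (G.Adj x c → R.card + (CN G R x c).card =
    (D G R x).card + (D G R c).card + (II G R x c).card) ∧
  (¬ G.Adj x c → R.card + (CN G R x c).card =
    (D G R x).card + (D G R c).card + (II G R x c).card + ir R x + ir R c) ∧
  (PB G R x c).card + (CN G R x c).card + (if G.Adj x c then ir R c else 0) = (D G R x).card

/-- I2: two middle common neighbours for all of `I` (the one-region case) -/
def Mid (G : SimpleGraph V) (R : Finset V) (x c a1 a2 a3 a4 : V) : Prop :=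
  CN G R x c = {a1, a2, a3, a4} ∧ a1 ≠ a2 ∧ a1 ≠ a3 ∧ a1 ≠ a4 ∧ a2 ≠ a3 ∧ a2 ≠ a4 ∧ a3 ≠ a4 ∧
  G.Adj a1 a2 ∧ G.Adj a3 a4 ∧ ∀ u ∈ II G R x c, G.Adj u a2 ∧ G.Adj u a3

/-- R5A: adjacent poles with four common neighbours -/
def R5AStmt : Prop := ∀ (V : Type) (G : SimpleGraph V) (R : Finset V) (x c : V), Lf G R →
  G.Adj x c → (CN G R x c).card = 4 → (II G R x c).Nonempty →
  ∃ a1 a2 a3 a4, Mid G R x c a1 a2 a3 a4

/-- R4A: four common neighbours, at least three private neighbours of `x` -/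
def R4AStmt : Prop := ∀ (V : Type) (G : SimpleGraph V) (R : Finset V) (x c : V), Lf G R →
  Co4 G R → x ≠ c → (CN G R x c).card = 4 → (II G R x c).Nonempty → 3 ≤ (PB G R x c).card →
  ∃ a1 a2 a3 a4, Mid G R x c a1 a2 a3 a4

/-- R4B: four common neighbours, some common neighbour is adjacent to all of `I` and to two other
common neighbours, or the one-region case -/
def R4BStmt : Prop := ∀ (V : Type) (G : SimpleGraph V) (R : Finset V) (x c : V), Lf G R →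
  x ≠ c → (CN G R x c).card = 4 → (II G R x c).Nonempty →
  (∃ a1 a2 a3 a4, Mid G R x c a1 a2 a3 a4) ∨
  ∃ a ∈ CN G R x c, (∀ u ∈ II G R x c, G.Adj u a) ∧ (∀ b ∈ PB G R x c, G.Adj b a) ∧
    ∃ a' ∈ CN G R x c, ∃ a'' ∈ CN G R x c, a' ≠ a'' ∧ G.Adj a a' ∧ G.Adj a a''

/-- RM1: private neighbours are adjacent to one of the two middle vertices -/
def RM1Stmt : Prop := ∀ (V : Type) (G : SimpleGraph V) (R : Finset V) (x c a1 a2 a3 a4 : V),
  Lf G R → x ≠ c → Mid G R x c a1 a2 a3 a4 → 2 ≤ (II G R x c).card → (PB G R c x).Nonempty →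
  ∀ b ∈ PB G R x c, G.Adj b a2 ∨ G.Adj b a3

/-- RM2: crossing private neighbours -/
def RM2Stmt : Prop := ∀ (V : Type) (G : SimpleGraph V) (R : Finset V) (x c a1 a2 a3 a4 : V),
  Lf G R → x ≠ c → Mid G R x c a1 a2 a3 a4 → 2 ≤ (II G R x c).card → ∀ b ∈ PB G R x c,
  ∀ e ∈ PB G R c x, G.Adj b a2 → ¬ G.Adj b a3 → G.Adj e a3 → ¬ G.Adj e a2 → False

/-- R3A: adjacent poles with three common neighbours -/
def R3AStmt : Prop := ∀ (V : Type) (G : SimpleGraph V) (R : Finset V) (x c : V), Lf G R →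
  G.Adj x c → (CN G R x c).card = 3 → (II G R x c).Nonempty →
  ∃ a1 a2 a3, CN G R x c = {a1, a2, a3} ∧ a1 ≠ a2 ∧ a1 ≠ a3 ∧ a2 ≠ a3 ∧
    EJ G {x} {c} (CN G R x c) a1 a2 ∧ EJ G {x} {c} (CN G R x c) a2 a3 ∧
    (G.Adj a2 a1 ∨ G.Adj a2 a3) ∧ ∀ u ∈ II G R x c, G.Adj u a2 ∧
      (Lnk G (XX {x} {c} (CN G R x c)) u a1 ∨ G.Adj a2 a1) ∧
      (Lnk G (XX {x} {c} (CN G R x c)) u a3 ∨ G.Adj a2 a3)

/-- R5N: the bound for adjacent poles with four common neighbours -/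
def R5NStmt : Prop := ∀ (V : Type) (G : SimpleGraph V) (R : Finset V) (x c : V), Lf G R →
  Co4 G R → G.Adj x c → c ∈ R → (CN G R x c).card = 4 →
  R.card + 1 + ir R x ≤ (D G R x).card + (D G R c).card

/-- R4N: the bounds for four common neighbours -/
def R4NStmt : Prop := ∀ (V : Type) (G : SimpleGraph V) (R : Finset V) (x c : V) (d : ℕ), Lf G R →
  Co4 G R → x ≠ c → (CN G R x c).card = 4 → DegLe G R d →
  (7 ≤ d → (D G R x).card = d → R.card ≤ (D G R x).card + (D G R c).card) ∧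
  (d ≤ 6 → R.card ≤ 12)

/-- R3N: the bound for adjacent poles with three common neighbours -/
def R3NStmt : Prop := ∀ (V : Type) (G : SimpleGraph V) (R : Finset V) (x c : V) (d : ℕ), Lf G R →
  G.Adj x c → c ∈ R → (CN G R x c).card = 3 → DegLe G R d → R.card + 5 + ir R x ≤ 3 * d ∨
  R.card + 3 ≤ 2 * d

/-- R3E: the equality case of R3N -/
def R3EStmt : Prop := ∀ (V : Type) (G : SimpleGraph V) (R : Finset V) (x c : V) (d : ℕ), Lf G R →
  5 ≤ d → G.Adj x c → c ∈ R → (CN G R x c).card = 3 → DegLe G R d → R.card + 5 = 3 * d →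
  ∃ a ∈ R, (D G R a).card = d

/-- BB: `p ≥ 3`: degrees are at most six -/
def BBStmt : Prop := ∀ (V : Type) (G : SimpleGraph V) (p : ℕ) (lab : V → V → Fin p)
  (R : Finset V), CB p G lab R → 3 ≤ p → DegLe G R 6

/-! ### `p = 2`, degrees seven to ten -/

/-- E10: degree ten -/
def E10Stmt : Prop := ∀ (V : Type) (G : SimpleGraph V) (R : Finset V) (x c c' : V), L16 G R →
  DegLe G R 10 → (D G R x).card = 10 → G.Adj x c → G.Adj x c' → c ∈ R → c' ∈ R → c ≠ c' →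
  (CN G R x c).card = 4 → (CN G R x c').card = 4 →
  (∀ s ∈ D G R x, s ∈ CC G R x c ∨ s ∈ CC G R x c') → False

/-- E9: degree nine -/
def E9Stmt : Prop := ∀ (V : Type) (G : SimpleGraph V) (R : Finset V) (x c : V), L16 G R →
  DegLe G R 9 → (D G R x).card = 9 → G.Adj x c → c ∈ R → (CN G R x c).card = 4 → False

/-- E8A: degree eight, four common neighbours -/
def E8AStmt : Prop := ∀ (V : Type) (G : SimpleGraph V) (R : Finset V) (x c : V), L16 G R →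
  DegLe G R 8 → (D G R x).card = 8 → x ≠ c → (CN G R x c).card = 4 → False

/-- the situation of E8B: degree eight, two disjoint closed neighbourhoods with four elements -/
structure T8 (G : SimpleGraph V) (R : Finset V) (x c c' : V) : Prop where
  l : L16 G R
  deg : DegLe G R 8
  dx : (D G R x).card = 8
  ac : G.Adj x c
  ac' : G.Adj x c'
  mc : c ∈ R
  mc' : c' ∈ R
  ne : c ≠ c'
  n : (CN G R x c).card = 3
  n' : (CN G R x c').card = 3
  cov : ∀ s ∈ D G R x, s ∈ CC G R x c ∨ s ∈ CC G R x c'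

/-- T8A: the structure around `c` -/
def T8AStmt : Prop := ∀ (V : Type) (G : SimpleGraph V) (R : Finset V) (x c c' : V),
  T8 G R x c c' → 3 ≤ (II G R x c).card ∧
  (∀ a ∈ CN G R x c, a ≠ c' ∧ ¬ G.Adj c' a) ∧ ¬ G.Adj c c' ∧
  (∀ s ∈ D G R x, s = c ∨ s = c' ∨ s ∈ CN G R x c ∨ s ∈ CN G R x c') ∧
  (∃ a1 a2 a3, CN G R x c = {a1, a2, a3} ∧ a1 ≠ a2 ∧ a1 ≠ a3 ∧ a2 ≠ a3 ∧ G.Adj a2 a3 ∧
    (∀ u ∈ U G R x, G.Adj u c ∨ G.Adj u a2) ∧
    (∀ w, (w ∈ U G R x ∨ w = c' ∨ w ∈ CN G R x c') →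
      ¬ Lnk G (XX {x} {c} (CN G R x c)) w a3) ∧
    ((G.Adj a2 a1 ∧ ∀ w, (w ∈ U G R x ∨ w = c' ∨ w ∈ CN G R x c') →
        ¬ Lnk G (XX {x} {c} (CN G R x c)) w a1) ∨
      ¬ G.Adj a2 a1))

/-- T8B: the case `¬ a2 ~ a1` for `c'` -/
def T8BStmt : Prop := ∀ (V : Type) (G : SimpleGraph V) (R : Finset V) (x c c' a2 a3 b1 b2 b3 : V),
  T8 G R x c c' → a2 ∈ CN G R x c → a3 ∈ CN G R x c → G.Adj a2 a3 →
  (∀ u ∈ U G R x, G.Adj u c ∨ G.Adj u a2) →
  CN G R x c' = {b1, b2, b3} → b1 ≠ b2 → b1 ≠ b3 → b2 ≠ b3 → G.Adj b2 b3 → ¬ G.Adj b2 b1 →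
  (∀ u ∈ U G R x, G.Adj u c' ∨ G.Adj u b2) → False

/-- T8C: the case `a2 ~ a1` for both (this case uses the labels) -/
def T8CStmt : Prop := ∀ (V : Type) (G : SimpleGraph V) (lab : V → V → Fin 2) (R : Finset V)
  (x c c' a1 a2 a3 b1 b2 b3 : V), Cfg 2 G lab R → T8 G R x c c' →
  CN G R x c = {a1, a2, a3} → a1 ≠ a2 → a1 ≠ a3 → a2 ≠ a3 → G.Adj a2 a3 → G.Adj a2 a1 →
  (∀ u ∈ U G R x, G.Adj u c ∨ G.Adj u a2) →
  (∀ w, (w ∈ U G R x ∨ w = c' ∨ w ∈ CN G R x c') → ¬ Lnk G (XX {x} {c} (CN G R x c)) w a3 ∧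
    ¬ Lnk G (XX {x} {c} (CN G R x c)) w a1) →
  CN G R x c' = {b1, b2, b3} → b1 ≠ b2 → b1 ≠ b3 → b2 ≠ b3 → G.Adj b2 b3 → G.Adj b2 b1 →
  (∀ u ∈ U G R x, G.Adj u c' ∨ G.Adj u b2) →
  (∀ w, (w ∈ U G R x ∨ w = c ∨ w ∈ CN G R x c) → ¬ Lnk G (XX {x} {c'} (CN G R x c')) w b3 ∧
    ¬ Lnk G (XX {x} {c'} (CN G R x c')) w b1) → False

/-- E8B -/
def E8BStmt : Prop := ∀ (V : Type) (G : SimpleGraph V) (lab : V → V → Fin 2) (R : Finset V)
  (x c c' : V), Cfg 2 G lab R → T8 G R x c c' → False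

/-- E7: `p = 2`: degrees are at most six -/
def E7Stmt : Prop := ∀ (V : Type) (G : SimpleGraph V) (lab : V → V → Fin 2) (R : Finset V),
  CB 2 G lab R → DegLe G R 6

/-- ES6: `p = 2`: the setting `S6` -/
def ES6Stmt : Prop := ∀ (V : Type) (G : SimpleGraph V) (lab : V → V → Fin 2) (R : Finset V),
  CB 2 G lab R → S6 G R 6

end Pool.Agent.H6.RCQ
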