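import Pool.Agent.H6.RCQ.Defs

/-!
# Project RCQ: utilities

`no33`/`no5`: contradiction from explicit branch sets; `Tch` is best proved by
`⟨a, by simp, b, by simp, h⟩`; disjointness of explicit finite sets by
`simp only [Set.disjoint_left, Set.mem_insert_iff, Set.mem_singleton_iff]; grind`.
-/

set_option autoImplicit false

namespace Pool.Agent.H6.RCQ

open Pool.Agent.H39.RC

variable {V : Type} {G : SimpleGraph V}

/-- two sets joined by an edge -/
def Tch (G : SimpleGraph V) (A B : Set V) : Prop := ∃ a ∈ A, ∃ b ∈ B, G.Adj a b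

theorem Tch.symm {A B : Set V} (h : Tch G A B) : Tch G B A := by
  obtain ⟨a, ha, b, hb, h⟩ := h
  exact ⟨b, hb, a, ha, h.symm⟩

theorem Tch.mono {A B A' B' : Set V} (h : Tch G A B) (h1 : A ⊆ A') (h2 : B ⊆ B') :
    Tch G A' B' := by
  obtain ⟨a, ha, b, hb, h⟩ := h
  exact ⟨a, h1 ha, b, h2 hb, h⟩

/-- contradiction from a `K₃,₃` minor -/
theorem no33 (h : PG G) {A B C D E F : Set V} (cA : Con G A) (cB : Con G B) (cC : Con G C)
    (cD : Con G D) (cE : Con G E) (cF : Con G F) (dAB : Disjoint A B) (dAC : Disjoint A C)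
    (dBC : Disjoint B C) (dDE : Disjoint D E) (dDF : Disjoint D F) (dEF : Disjoint E F)
    (dAD : Disjoint A D) (dAE : Disjoint A E) (dAF : Disjoint A F) (dBD : Disjoint B D)
    (dBE : Disjoint B E) (dBF : Disjoint B F) (dCD : Disjoint C D) (dCE : Disjoint C E)
    (dCF : Disjoint C F) (tAD : Tch G A D) (tAE : Tch G A E) (tAF : Tch G A F)
    (tBD : Tch G B D) (tBE : Tch G B E) (tBF : Tch G B F) (tCD : Tch G C D) (tCE : Tch G C E)
    (tCF : Tch G C F) : False := by
  refine h.k33 (hasMinor_k33 ![A, B, C] ![D, E, F] ?_ ?_ ?_ ?_ ?_ ?_)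
  · intro i; fin_cases i <;> assumption
  · intro i; fin_cases i <;> assumption
  · intro i j hij; fin_cases i <;> fin_cases j <;> simp at hij ⊢ <;> assumption
  · intro i j hij; fin_cases i <;> fin_cases j <;> simp at hij ⊢ <;> assumption
  · intro i j; fin_cases i <;> fin_cases j <;> simp <;> assumption
  · intro i j; fin_cases i <;> fin_cases j <;> simp only [] <;> assumption

/-- contradiction from a `K₅` minor -/
theorem no5 (h : PG G) {A B C D E : Set V} (cA : Con G A) (cB : Con G B) (cC : Con G C)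
    (cD : Con G D) (cE : Con G E) (dAB : Disjoint A B) (dAC : Disjoint A C)
    (dAD : Disjoint A D) (dAE : Disjoint A E) (dBC : Disjoint B C) (dBD : Disjoint B D)
    (dBE : Disjoint B E) (dCD : Disjoint C D) (dCE : Disjoint C E) (dDE : Disjoint D E)
    (tAB : Tch G A B) (tAC : Tch G A C) (tAD : Tch G A D) (tAE : Tch G A E)
    (tBC : Tch G B C) (tBD : Tch G B D) (tBE : Tch G B E) (tCD : Tch G C D) (tCE : Tch G C E)
    (tDE : Tch G D E) : False := by
  refine h.k5 (hasMinor_k5 ![A, B, C, D, E] ?_ ?_ ?_)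
  · intro i; fin_cases i <;> assumption
  · intro i j hij; fin_cases i <;> fin_cases j <;> simp at hij ⊢ <;> assumption
  · intro i j hij
    fin_cases i <;> fin_cases j <;>
      first
        | (exfalso; revert hij; decide)
        | (simp only []; assumption)

theorem con_three {a b c : V} (h1 : a = b ∨ G.Adj a b) (h2 : b = c ∨ G.Adj b c) :
    Con G {a, b, c} := by
  have h := con_pair (G := G) h2
  rcases h1 with rfl | h1
  · rwa [Set.insert_eq_of_mem (by simp)]
  · exact h.insert (y := b) (by simp) h1.symm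

theorem con_four {a b c d : V} (h1 : a = b ∨ G.Adj a b) (h2 : b = c ∨ G.Adj b c)
    (h3 : c = d ∨ G.Adj c d) : Con G {a, b, c, d} := by
  have h := con_three (G := G) h2 h3
  rcases h1 with rfl | h1
  · rwa [Set.insert_eq_of_mem (by simp)]
  · exact h.insert (y := b) (by simp) h1.symm

theorem con_five {a b c d e : V} (h1 : a = b ∨ G.Adj a b) (h2 : b = c ∨ G.Adj b c)
    (h3 : c = d ∨ G.Adj c d) (h4 : d = e ∨ G.Adj d e) : Con G {a, b, c, d, e} := by
  have h := con_four (G := G) h2 h3 h4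
  rcases h1 with rfl | h1
  · rwa [Set.insert_eq_of_mem (by simp)]
  · exact h.insert (y := b) (by simp) h1.symm

/-- vertices of a connected set avoiding `X` are linked to the same vertices -/
theorem lnk_of_con {X Z : Set V} {v w a : V} (hZ : Con G Z) (hX : ∀ z ∈ Z, z ∉ X) (hv : v ∈ Z)
    (hw : w ∈ Z) (h : Lnk G X v a) : Lnk G X w a := by
  obtain ⟨Y, h1, h2, h3, y, h4, h5⟩ := h
  refine ⟨Z ∪ Y, Or.inl hw, hZ.union h2 hv h1, ?_, y, Or.inr h4, h5⟩
  rintro z (hz | hz)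
  · exact hX z hz
  · exact h3 z hz

theorem lnk_notMem {X : Set V} {v a : V} (h : Lnk G X v a) : v ∉ X := by
  obtain ⟨Y, h1, -, h3, -⟩ := h
  exact h3 v h1

theorem lnk_mono {X X' : Set V} {v a : V} (hX : X' ⊆ X) (h : Lnk G X v a) : Lnk G X' v a := by
  obtain ⟨Y, h1, h2, h3, h4⟩ := h
  exact ⟨Y, h1, h2, fun z hz hz' => h3 z hz (hX hz'), h4⟩

theorem EJ.symm' {P Q : Set V} {S : Finset V} {s t : V} (h : EJ G P Q S s t) :
    EJ G P Q S t s := by
  obtain ⟨h1, h2, h3, h4⟩ := h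
  refine ⟨h2, h1, h3.symm, ?_⟩
  rcases h4 with h4 | ⟨v, h4, h5⟩
  · exact Or.inl h4.symm
  · exact Or.inr ⟨v, h5, h4⟩

theorem EJ.ofAdj {P Q : Set V} {S : Finset V} {s t : V} (hs : s ∈ S) (ht : t ∈ S)
    (h : G.Adj s t) : EJ G P Q S s t := ⟨hs, ht, h.ne, Or.inl h⟩

/-- a consecutive pair of a set of common neighbours is consecutive in a smaller set -/
theorem EJ.sub {P Q : Set V} {S S' : Finset V} {s t : V} (hS : S' ⊆ S) (hs : s ∈ S')
    (ht : t ∈ S') (h : EJ G P Q S s t) : EJ G P Q S' s t := by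
  have hX : XX P Q S' ⊆ XX P Q S := by
    unfold XX
    exact Set.union_subset_union_right _ (by exact_mod_cast hS)
  obtain ⟨-, -, h3, h4⟩ := h
  refine ⟨hs, ht, h3, ?_⟩
  rcases h4 with h4 | ⟨v, h4, h5⟩
  · exact Or.inl h4
  · exact Or.inr ⟨v, lnk_mono hX h4, lnk_mono hX h5⟩

theorem Pol.sub {P Q : Set V} {S S' : Finset V} (hS : S' ⊆ S) (h : Pol G P Q S) :
    Pol G P Q S' :=
  ⟨h.cP, h.cQ, h.dis, fun s hs => h.oP s (hS hs), fun s hs => h.oQ s (hS hs),
    fun s hs => h.aP s (hS hs), fun s hs => h.aQ s (hS hs)⟩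

theorem Pol.swap {P Q : Set V} {S : Finset V} (h : Pol G P Q S) : Pol G Q P S :=
  ⟨h.cQ, h.cP, h.dis.symm, h.oQ, h.oP, h.aQ, h.aP⟩

/-- the connected set of an `EJ` pair: `{s} ∪ Z` is connected and touches `t`, `Z` avoids `X` -/
theorem EJ.conn {P Q : Set V} {S : Finset V} {s t : V} (h : EJ G P Q S s t) :
    ∃ Z : Set V, (∀ z ∈ Z, z ∉ XX P Q S) ∧ Con G ({s} ∪ Z) ∧ Con G ({t} ∪ Z) ∧
      Con G ({s} ∪ Z ∪ {t}) ∧ Tch G ({s} ∪ Z) {t} ∧ Tch G ({t} ∪ Z) {s} := by
  obtain ⟨h1, h2, h3, h4⟩ := h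
  rcases h4 with h4 | ⟨v, ⟨Z1, v1, k1, x1, z1, m1, e1⟩, Z2, v2, k2, x2, z2, m2, e2⟩
  · refine ⟨∅, by simp, by simpa using con_single s, by simpa using con_single t, ?_,
      ⟨s, by simp, t, rfl, h4⟩, ⟨t, by simp, s, rfl, h4.symm⟩⟩
    have := con_pair (G := G) (Or.inr h4)
    simpa [Set.pair_comm] using this
  · have hc := k1.union k2 v1 v2
    refine ⟨Z1 ∪ Z2, ?_, ?_, ?_, ?_, ⟨z2, Or.inr (Or.inr m2), t, rfl, e2⟩,
      ⟨z1, Or.inr (Or.inl m1), s, rfl, e1⟩⟩
    · rintro z (hz | hz)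
      · exact x1 z hz
      · exact x2 z hz
    · exact (con_single s).union_adj hc (v := s) (w := z1) rfl (Or.inl m1) e1.symm
    · exact (con_single t).union_adj hc (v := t) (w := z2) rfl (Or.inr m2) e2.symm
    · refine Con.union_adj (v := z2) (w := t) ?_ (con_single t) (Or.inr (Or.inr m2)) rfl e2
      exact (con_single s).union_adj hc (v := s) (w := z1) rfl (Or.inl m1) e1.symm

end Pool.Agent.H6.RCQ
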