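import Pool.Agent.H6.RCQ.Defs

/-!
# Project RCQ: statements, part 1 (poles, cofacial sets, full classes)
-/

set_option autoImplicit false

namespace Pool.Agent.H6.RCQ

open Pool.Agent.H39.RC
open Classical

variable {V : Type}

/-! ### Poles -/

/-- PE1: a component is attached to at most two common neighbours -/
def PE1Stmt : Prop := ∀ (V : Type) (G : SimpleGraph V) (P Q : Set V) (S : Finset V), PG G →
  Pol G P Q S → ∀ v s1 s2 s3, s1 ∈ S → s2 ∈ S → s3 ∈ S → s1 ≠ s2 → s1 ≠ s3 → s2 ≠ s3 →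
  Lnk G (XX P Q S) v s1 → Lnk G (XX P Q S) v s2 → Lnk G (XX P Q S) v s3 → False

/-- PE2: consecutive pairs form a graph of maximum degree at most two -/
def PE2Stmt : Prop := ∀ (V : Type) (G : SimpleGraph V) (P Q : Set V) (S : Finset V), PG G →
  Pol G P Q S → ∀ s t1 t2 t3, EJ G P Q S s t1 → EJ G P Q S s t2 → EJ G P Q S s t3 →
  t1 ≠ t2 → t1 ≠ t3 → t2 ≠ t3 → False

/-- PE3: no short triangle of consecutive pairs -/
def PE3Stmt : Prop := ∀ (V : Type) (G : SimpleGraph V) (P Q : Set V) (S : Finset V), PG G →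
  Pol G P Q S → (PAdj G P Q ∨ 4 ≤ S.card) → ∀ s1 s2 s3, EJ G P Q S s1 s2 → EJ G P Q S s2 s3 →
  EJ G P Q S s3 s1 → False

/-- PE4: no short 4-cycle of consecutive pairs -/
def PE4Stmt : Prop := ∀ (V : Type) (G : SimpleGraph V) (P Q : Set V) (S : Finset V), PG G →
  Pol G P Q S → (PAdj G P Q ∨ 5 ≤ S.card) → ∀ s1 s2 s3 s4, s1 ≠ s3 → s2 ≠ s4 →
  EJ G P Q S s1 s2 → EJ G P Q S s2 s3 → EJ G P Q S s3 s4 → EJ G P Q S s4 s1 → False

/-- PE5: no short 5-cycle of consecutive pairs -/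
def PE5Stmt : Prop := ∀ (V : Type) (G : SimpleGraph V) (P Q : Set V) (S : Finset V), PG G →
  Pol G P Q S → (PAdj G P Q ∨ 6 ≤ S.card) → ∀ s1 s2 s3 s4 s5, s1 ≠ s3 → s1 ≠ s4 → s2 ≠ s4 →
  s2 ≠ s5 → s3 ≠ s5 → EJ G P Q S s1 s2 → EJ G P Q S s2 s3 → EJ G P Q S s3 s4 →
  EJ G P Q S s4 s5 → EJ G P Q S s5 s1 → False

/-- PE6: adjacent poles have at most three common neighbours that are pairwise linked avoiding the
poles, and three such neighbours form a path -/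
def PE6Stmt : Prop := ∀ (V : Type) (G : SimpleGraph V) (P Q : Set V) (S : Finset V), PG G →
  Pol G P Q S → PAdj G P Q → (∀ s ∈ S, ∀ t ∈ S, s ≠ t → Rch G (P ∪ Q) s t) →
  S.card ≤ 3 ∧ (S.card = 3 → ∃ a b c, S = {a, b, c} ∧ a ≠ b ∧ b ≠ c ∧ a ≠ c ∧ G.Adj a b ∧
    G.Adj b c ∧ ¬ G.Adj a c)

/-- PE7: poles with at least six common neighbours; at most three of them are pairwise linked
avoiding the poles -/
def PE7Stmt : Prop := ∀ (V : Type) (G : SimpleGraph V) (P Q : Set V) (S Z : Finset V), PG G →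
  Pol G P Q S → 6 ≤ S.card → Z ⊆ S →
  (∀ s ∈ Z, ∀ t ∈ Z, s ≠ t → Rch G (P ∪ Q) s t) → Z.card ≤ 3

/-- DOM: dominance -/
def DOMStmt : Prop := ∀ (V : Type) (G : SimpleGraph V) (P Q : Set V) (S : Finset V), PG G →
  Pol G P Q S → 5 ≤ S.card → ∀ r, r ∉ XX P Q S → (∀ s ∈ S, Rch G (P ∪ Q) r s) → False

/-- R4L: an outside vertex linked to all of four common neighbours -/
def R4LStmt : Prop := ∀ (V : Type) (G : SimpleGraph V) (P Q : Set V) (S : Finset V), PG G →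
  Pol G P Q S → S.card = 4 → ∀ r, r ∉ XX P Q S → (∀ s ∈ S, Rch G (P ∪ Q) r s) →
  ∃ a b c d, S = {a, b, c, d} ∧ a ≠ b ∧ a ≠ c ∧ a ≠ d ∧ b ≠ c ∧ b ≠ d ∧ c ≠ d ∧
    G.Adj a b ∧ G.Adj r b ∧ G.Adj r c ∧ G.Adj c d ∧ EJ G P Q S b c ∧
    ¬ Lnk G (XX P Q S) r a ∧ ¬ Lnk G (XX P Q S) r d

/-- R3L: an outside vertex linked to all of three common neighbours of adjacent poles -/
def R3LStmt : Prop := ∀ (V : Type) (G : SimpleGraph V) (P Q : Set V) (S : Finset V), PG G →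
  Pol G P Q S → PAdj G P Q → S.card = 3 → ∀ r, r ∉ XX P Q S → (∀ s ∈ S, Rch G (P ∪ Q) r s) →
  ∃ a b c, S = {a, b, c} ∧ a ≠ b ∧ a ≠ c ∧ b ≠ c ∧ G.Adj r b ∧ EJ G P Q S a b ∧ EJ G P Q S b c ∧
    (G.Adj b a ∨ G.Adj b c) ∧ (Lnk G (XX P Q S) r a ∨ G.Adj b a) ∧
    (Lnk G (XX P Q S) r c ∨ G.Adj b c)

/-! ### Cofacial sets -/

/-- COA: if some vertex has five neighbours in `M`, it is adjacent to all of `M` -/
def COAStmt : Prop := ∀ (V : Type) (G : SimpleGraph V) (O : Set V) (M : Finset V), PG G →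
  CoF G O M → ∀ g, g ∉ O → 5 ≤ (M.filter (fun v => G.Adj g v)).card → ∀ m ∈ M, m ≠ g → G.Adj g m

/-- the structure of a cofacial set with six elements -/
def Six (G : SimpleGraph V) (M : Finset V) : Prop := ∃ g a b c d r, M = {g, a, b, c, d, r} ∧
  G.Adj g a ∧ G.Adj g b ∧ G.Adj g c ∧ G.Adj g d ∧ G.Adj a b ∧ G.Adj b r ∧ G.Adj r c ∧ G.Adj c d

/-- CO4: the case of a vertex with four neighbours in `M` -/
def CO4Stmt : Prop := ∀ (V : Type) (G : SimpleGraph V) (O : Set V) (M : Finset V), PG G →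
  CoF G O M → (∀ g, g ∉ O → (M.filter (fun v => G.Adj g v)).card ≤ 4) → ∀ g, g ∉ O →
  (M.filter (fun v => G.Adj g v)).card = 4 → M.card ≤ 6 ∧ (M.card = 6 → Six G M)

/-- CO3: at most five elements if no vertex has four neighbours in `M` -/
def CO3Stmt : Prop := ∀ (V : Type) (G : SimpleGraph V) (O : Set V) (M : Finset V), PG G →
  CoF G O M → (∀ g, g ∉ O → (M.filter (fun v => G.Adj g v)).card ≤ 3) → M.card ≤ 5

/-- COB: the case that no vertex has five neighbours in `M` -/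
def COBStmt : Prop := ∀ (V : Type) (G : SimpleGraph V) (O : Set V) (M : Finset V), PG G →
  CoF G O M → (∀ g, g ∉ O → (M.filter (fun v => G.Adj g v)).card ≤ 4) →
  M.card ≤ 6 ∧ (M.card = 6 → Six G M)

/-- the structure of a full class -/
def Full {p : ℕ} (G : SimpleGraph V) (lab : V → V → Fin p) (M : Finset V) : Prop :=
  ∃ g ∈ M, (∀ m ∈ M, m ≠ g → G.Adj g m) ∧ ∀ l : Fin p, ∃ a b c, a ∈ M ∧ b ∈ M ∧ c ∈ M ∧
    a ≠ g ∧ b ≠ g ∧ c ≠ g ∧ a ≠ b ∧ b ≠ c ∧ a ≠ c ∧ G.Adj a b ∧ G.Adj b c ∧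
    ∀ v ∈ M, v ≠ g → (lab g v = l ↔ v = a ∨ v = b ∨ v = c)

/-- COM: the cofacial lemma -/
def COMStmt : Prop := ∀ (V : Type) (G : SimpleGraph V) (p : ℕ) (lab : V → V → Fin p) (O : Set V)
  (M : Finset V), 2 ≤ p → PG G → Con G O → (∀ m ∈ M, m ∉ O) → (∀ m ∈ M, ∃ z ∈ O, G.Adj z m) →
  (∀ m ∈ M, ∀ m' ∈ M, m ≠ m' → LR G lab O m m') →
  M.card ≤ 3 * p + 1 ∧ (M.card = 3 * p + 1 → Full G lab M)

/-! ### Degrees -/

/-- FC: full classes -/
def FCStmt : Prop := ∀ (V : Type) (G : SimpleGraph V) (p : ℕ) (lab : V → V → Fin p)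
  (R M : Finset V) (x : V), 2 ≤ p → Cfg p G lab R → M ⊆ D G R x →
  (∀ m ∈ M, ∀ m' ∈ M, lab x m = lab x m') → M.card = 3 * p + 1 → ∀ u ∈ U G R x,
  (∃ g ∈ M, G.Adj u g) ∧ (∀ d ∈ D G R x, G.Adj u d → d ∈ M) ∧ (CN G R x u).card ≤ 3

/-- DEG: degree bounds -/
def DEGStmt : Prop := ∀ (V : Type) (G : SimpleGraph V) (p : ℕ) (lab : V → V → Fin p)
  (R : Finset V) (x : V), 2 ≤ p → Cfg p G lab R →
  (D G R x).card ≤ 3 * p ^ 2 + p ∧
  ((U G R x).Nonempty → (D G R x).card ≤ 3 * p ^ 2 + 1) ∧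
  ((∃ u ∈ U G R x, 4 ≤ (CN G R x u).card) → (D G R x).card ≤ 3 * p ^ 2)

/-- STAR: the star case -/
def STARStmt : Prop := ∀ (V : Type) (G : SimpleGraph V) (p : ℕ) (lab : V → V → Fin p)
  (R : Finset V) (x : V), 2 ≤ p → Cfg p G lab R → R.card = 3 * p ^ 2 + p + 2 →
  (U G R x).Nonempty

end Pool.Agent.H6.RCQ
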