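import Pool.Agent.H6.RCQ.Stmts4

set_option autoImplicit false

namespace Pool.Agent.H6.RCQ.C2

open Pool.Agent.H39.RC
open Pool.Agent.H6.RCQ
open Classical

theorem c2 (h1 : CV1Stmt) (h2 : CV2Stmt) (h3 : CV3Stmt) (h4 : CV4Stmt) : C2Stmt := by
  intro V G lab R hfin h hdeg
  have hcard : R.card = 16 := by rw [h.card]; norm_num
  have e1 := h1 V G R 4 hfin h.cfg.pg (by omega) (by norm_num) (fun w _ => hdeg w)
  have e2 := h2 V G 2 lab R 2 (fun w _ => (h3 V 2 (lab w) (D G R w)).1 rfl (hdeg w))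
  have e4 := h4 V G 2 lab R h.cfg
  have e5 : pr R (fun a b => G.Adj a b) ≤ 4 * R.card := by
    unfold pr
    refine Finset.card_le_mul_card_image_of_maps_to (f := Prod.fst) ?_ 4 ?_
    · rintro ⟨a, b⟩ hab
      simp only [Finset.mem_filter, Finset.mem_product] at hab
      exact hab.1.1
    · intro x hx
      refine le_trans ?_ (hdeg x)
      refine Finset.card_le_card_of_injOn Prod.snd ?_ ?_
      · rintro ⟨a, b⟩ hab
        simp only [Finset.coe_filter, Set.mem_setOf_eq, Finset.mem_filter, Finset.mem_product] at hab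
        simp only [D, Finset.coe_filter, Set.mem_setOf_eq]
        exact ⟨hab.1.1.2, hab.2 ▸ hab.1.2.2⟩
      · rintro ⟨a, b⟩ hab ⟨a', b'⟩ hab' e
        simp only [Finset.coe_filter, Set.mem_setOf_eq, Finset.mem_filter, Finset.mem_product] at hab hab'
        simp only at e
        rw [hab.2, hab'.2, e]
  rw [hcard] at e1 e4 e5
  omega

end Pool.Agent.H6.RCQ.C2
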