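import Pool.Agent.H6.RCQ.Stmts3

set_option autoImplicit false

namespace Pool.Agent.H6.RCQ.ES6

open Pool.Agent.H39.RC
open Pool.Agent.H6.RCQ
open Classical

theorem es6 (hE7 : E7Stmt) (hLF : LFStmt) (hR4N : R4NStmt) (hR3N : R3NStmt) : ES6Stmt := by
  intro V G lab R h
  have hdeg := hE7 V G lab R h
  have hlf := hLF V G 2 lab R h.cfg
  have hcard : R.card = 16 := by rw [h.card]; norm_num
  refine ⟨hlf, hcard, hdeg, ?_⟩
  intro x z hxz
  by_contra hcon
  push Not at hcon
  have hco := h.co x z hxz
  have hsub : CC G R x z ⊆ insert z (CN G R x z) := by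
    intro t ht
    simp only [CC, Finset.mem_filter] at ht
    simp only [Finset.mem_insert, CN, Finset.mem_filter]
    rcases ht.2.2 with h' | h'
    · exact Or.inl h'
    · exact Or.inr ⟨ht.1, ht.2.1, h'⟩
  have hle : (CC G R x z).card ≤ (CN G R x z).card + 1 :=
    (Finset.card_le_card hsub).trans (Finset.card_insert_le _ _)
  by_cases h4 : (CN G R x z).card = 4
  · have := (hR4N V G R x z 6 hlf h.co hxz h4 hdeg).2 le_rfl
    omega
  · have h3 : (CN G R x z).card = 3 := by omega
    by_cases hz : z ∈ CC G R x z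
    · simp only [CC, Finset.mem_filter] at hz
      rcases hR3N V G R x z 6 hlf hz.2.1 hz.1 h3 hdeg with h5 | h5 <;> omega
    · have hsub' : CC G R x z ⊆ CN G R x z := by
        intro t ht
        rcases Finset.mem_insert.1 (hsub ht) with h' | h'
        · exact absurd (h' ▸ ht) hz
        · exact h'
      have := Finset.card_le_card hsub'
      omega

end Pool.Agent.H6.RCQ.ES6
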