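import Pool.Agent.H6.RCQ.Defs
import Pool.Agent.H3.RCR.Defs

/-!
# Project RCQ: statements, part 5 (topology, triangulated spheres, lower bound, relative cliques)
-/

set_option autoImplicit false

namespace Pool.Agent.H6.RCQ

open Pool.Agent.H39.RC
open Classical

/-! ### From drawings to grids -/

/-- a drawing of `G` in the plane by arcs (as in the frozen statement) -/
def Drw {V : Type} (G : SimpleGraph V) (p : V → ℝ × ℝ) (γ : ∀ u v : V, Path (p u) (p v)) : Prop :=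
  Function.Injective p ∧
  (∀ u v, G.Adj u v → Function.Injective (γ u v)) ∧
  (∀ u v w, G.Adj u v → ∀ t : unitInterval, 0 < (t : ℝ) → (t : ℝ) < 1 → γ u v t ≠ p w) ∧
  (∀ u v x y, G.Adj u v → G.Adj x y → ¬(x = u ∧ y = v) → ¬(x = v ∧ y = u) →
    ∀ s t : unitInterval, 0 < (s : ℝ) → (s : ℝ) < 1 → γ u v s ≠ γ x y t)

/-- middle parts of the arcs with quantitative distances (`dist` is the sup distance) -/
structure Arcs {V : Type} (G : SimpleGraph V) (p : V → ℝ × ℝ) (ε δ : ℝ)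
    (f : V → V → ℝ → ℝ × ℝ) : Prop where
  ep : 0 < ε
  dp : 0 < δ
  far : ∀ u v, u ≠ v → 2 * ε + δ ≤ dist (p u) (p v)
  cont : ∀ u v, G.Adj u v → ContinuousOn (f u v) (Set.Icc 0 1)
  start : ∀ u v, G.Adj u v → dist (f u v 0) (p u) = ε
  stop : ∀ u v, G.Adj u v → dist (f u v 1) (p v) = ε
  out : ∀ u v, G.Adj u v → ∀ w, w ≠ u → w ≠ v → ∀ s ∈ Set.Icc (0 : ℝ) 1,
    ε + δ ≤ dist (f u v s) (p w)
  sep : ∀ u v x y, G.Adj u v → G.Adj x y → ¬(x = u ∧ y = v) → ¬(x = v ∧ y = u) →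
    ∀ s ∈ Set.Icc (0 : ℝ) 1, ∀ t ∈ Set.Icc (0 : ℝ) 1, δ ≤ dist (f u v s) (f x y t)

/-- TP1: truncation of the arcs -/
def TP1Stmt : Prop := ∀ (V : Type) (G : SimpleGraph V) (p : V → ℝ × ℝ)
  (γ : ∀ u v : V, Path (p u) (p v)), Finite V → Drw G p γ → ∃ ε δ f, Arcs G p ε δ f

/-- the `n × n` grid -/
def GR (n : ℕ) : SimpleGraph (Fin n × Fin n) where
  Adj a b := (a.1 = b.1 ∧ (a.2.val + 1 = b.2.val ∨ b.2.val + 1 = a.2.val)) ∨
    (a.2 = b.2 ∧ (a.1.val + 1 = b.1.val ∨ b.1.val + 1 = a.1.val))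
  symm := ⟨fun a b h => by
    rcases h with ⟨h1, h2⟩ | ⟨h1, h2⟩
    · exact Or.inl ⟨h1.symm, h2.symm⟩
    · exact Or.inr ⟨h1.symm, h2.symm⟩⟩
  loopless := ⟨fun a h => by rcases h with ⟨_, h⟩ | ⟨_, h⟩ <;> omega⟩

/-- a model of `G` in `H` with separate connected sets for vertices and edges -/
structure Mod2 {V W : Type} (G : SimpleGraph V) (H : SimpleGraph W) (B : V → Set W)
    (C : V → V → Set W) : Prop where
  cB : ∀ u, Con H (B u)
  dB : ∀ u v, u ≠ v → Disjoint (B u) (B v)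
  cC : ∀ u v, G.Adj u v → Con H (C u v)
  mu : ∀ u v, G.Adj u v → (C u v ∩ B u).Nonempty
  mv : ∀ u v, G.Adj u v → (C u v ∩ B v).Nonempty
  out : ∀ u v, G.Adj u v → ∀ w, w ≠ u → w ≠ v → Disjoint (C u v) (B w)
  sep : ∀ u v x y, G.Adj u v → G.Adj x y → ¬(x = u ∧ y = v) → ¬(x = v ∧ y = u) →
    Disjoint (C u v) (C x y)

/-- TP2: discretisation -/
def TP2Stmt : Prop := ∀ (V : Type) (G : SimpleGraph V) (p : V → ℝ × ℝ) (ε δ : ℝ)
  (f : V → V → ℝ → ℝ × ℝ), Finite V → Arcs G p ε δ f → ∃ n B C, Mod2 G (GR n) B C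

/-- TP3: a minor from separate sets for vertices and edges -/
def TP3Stmt : Prop := ∀ (V W : Type) (G : SimpleGraph V) (H : SimpleGraph W) (B : V → Set W)
  (C : V → V → Set W), Mod2 G H B C → HasMinor H G

/-- TP4: grids are contained in triangulated spheres -/
def TP4Stmt : Prop := ∀ n : ℕ, ∃ F : Finset H3.RCR.Tri, H3.RCR.Sph F ∧
  ∃ ι : Fin n × Fin n → ℕ, Function.Injective ι ∧ ∀ a b, (GR n).Adj a b → H3.RCR.Adj F (ι a) (ι b)

/-! ### Triangulated spheres -/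

/-- the graph of a triangulated sphere -/
def FG (F : Finset H3.RCR.Tri) : SimpleGraph ℕ where
  Adj a b := a ≠ b ∧ (H3.RCR.Adj F a b ∨ H3.RCR.Adj F b a)
  symm := ⟨fun _ _ h => ⟨h.1.symm, h.2.symm⟩⟩
  loopless := ⟨fun _ h => h.1 rfl⟩

/-- TP5: drawings give minors of triangulated spheres -/
def TP5Stmt : Prop := ∀ (V : Type) (G : SimpleGraph V) (p : V → ℝ × ℝ)
  (γ : ∀ u v : V, Path (p u) (p v)), Finite V → Drw G p γ →
  ∃ F : Finset H3.RCR.Tri, H3.RCR.Sph F ∧ HasMinor (FG F) G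

/-- SM1: gluing two spheres along an edge -/
def SM1Stmt : Prop := ∀ (F1 F2 : Finset H3.RCR.Tri) (v w : ℕ), H3.RCR.Sph F1 → H3.RCR.Sph F2 →
  H3.RCR.verts F1 ∩ H3.RCR.verts F2 = {v, w} → H3.RCR.Adj F1 v w → H3.RCR.Adj F2 v w →
  ∃ F, H3.RCR.Sph F ∧ H3.RCR.verts F = H3.RCR.verts F1 ∪ H3.RCR.verts F2 ∧
    (∀ a b, H3.RCR.Adj F1 a b → H3.RCR.Adj F a b) ∧ (∀ a b, H3.RCR.Adj F2 a b → H3.RCR.Adj F a b)

/-- SM2: cutting a sphere along a separating triangle -/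
def SM2Stmt : Prop := ∀ (F : Finset H3.RCR.Tri) (u v w : ℕ), H3.RCR.Sph F → H3.RCR.Adj F u v →
  H3.RCR.Adj F v w → H3.RCR.Adj F w u → (u, v, w) ∉ F → (v, u, w) ∉ F →
  ∃ F1 F2, H3.RCR.Sph F1 ∧ H3.RCR.Sph F2 ∧
    H3.RCR.verts F1 ∪ H3.RCR.verts F2 = H3.RCR.verts F ∧
    H3.RCR.verts F1 ∩ H3.RCR.verts F2 = {u, v, w} ∧
    4 ≤ (H3.RCR.verts F1).card ∧ 4 ≤ (H3.RCR.verts F2).card ∧
    (∀ a b, H3.RCR.Adj F a b → H3.RCR.Adj F1 a b ∨ H3.RCR.Adj F2 a b) ∧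
    H3.RCR.Adj F1 u v ∧ H3.RCR.Adj F1 v w ∧ H3.RCR.Adj F1 w u ∧
    H3.RCR.Adj F2 u v ∧ H3.RCR.Adj F2 v w ∧ H3.RCR.Adj F2 w u

/-- SM3: every edge of a sphere with at least four vertices can be contracted inside a sphere -/
def SM3Stmt : Prop := ∀ (F : Finset H3.RCR.Tri) (u v : ℕ), H3.RCR.Sph F →
  4 ≤ (H3.RCR.verts F).card → H3.RCR.Adj F u v →
  ∃ F', H3.RCR.Sph F' ∧ H3.RCR.verts F' = (H3.RCR.verts F).erase u ∧
    ∀ a b, H3.RCR.Adj F a b → H3.RCR.sub1 u v a ≠ H3.RCR.sub1 u v b →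
      H3.RCR.Adj F' (H3.RCR.sub1 u v a) (H3.RCR.sub1 u v b)

/-- `G` is a spanning subgraph of a triangulated sphere -/
def Span {V : Type} (G : SimpleGraph V) : Prop := ∃ F : Finset H3.RCR.Tri, H3.RCR.Sph F ∧
  ∃ ι : V → ℕ, Function.Injective ι ∧ (∀ v, ι v ∈ H3.RCR.verts F) ∧
    (∀ x ∈ H3.RCR.verts F, ∃ v, ι v = x) ∧ ∀ u v, G.Adj u v → H3.RCR.Adj F (ι u) (ι v)

/-- SM4: minors with at least three vertices are spanning subgraphs of spheres -/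
def SM4Stmt : Prop := ∀ (V : Type) (G : SimpleGraph V) (F : Finset H3.RCR.Tri), Finite V →
  3 ≤ Nat.card V → H3.RCR.Sph F → HasMinor (FG F) G → Span G

/-- SM5: the number of darts -/
def SM5Stmt : Prop := ∀ (V : Type) [Fintype V] (G : SimpleGraph V), 3 ≤ Fintype.card V → Span G →
  (Finset.univ.filter (fun e : V × V => G.Adj e.1 e.2)).card + 12 ≤ 6 * Fintype.card V

/-- SM6: `K₃,₃` is not a spanning subgraph of a sphere -/
def SM6Stmt : Prop := ¬ Span (completeBipartiteGraph (Fin 3) (Fin 3))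

/-- SM7: the link of a vertex of a sphere is a cycle -/
def SM7Stmt : Prop := ∀ (F : Finset H3.RCR.Tri) (x : ℕ), H3.RCR.Sph F → x ∈ H3.RCR.verts F →
  ∃ (n : ℕ) (l : ℕ → ℕ), 0 < n ∧ (∀ i < n, ∀ j < n, l i = l j → i = j) ∧
    (∀ i < n, (x, l i, l ((i + 1) % n)) ∈ F) ∧ ∀ y, H3.RCR.Adj F x y → ∃ i < n, l i = y

/-- SM8: crossing connected sets in a sphere meet. `l` enumerates the link of `x` -/
def SM8Stmt : Prop := ∀ (F : Finset H3.RCR.Tri) (x n : ℕ) (l : ℕ → ℕ), H3.RCR.Sph F →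
  (∀ i < n, ∀ j < n, l i = l j → i = j) → (∀ i < n, (x, l i, l ((i + 1) % n)) ∈ F) →
  ∀ i j k m, i < j → j < k → k < m → m < n → Cr (FG F) x (l i) (l j) (l k) (l m)

/-- SM9: minors of spheres have all the properties `PG` -/
def SM9Stmt : Prop := ∀ (V : Type) (G : SimpleGraph V) (F : Finset H3.RCR.Tri), Finite V →
  H3.RCR.Sph F → HasMinor (FG F) G → PG G

/-- TPG: drawn graphs have all the properties `PG` -/
def TPGStmt : Prop := ∀ (V : Type) (G : SimpleGraph V) (p : V → ℝ × ℝ)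
  (γ : ∀ u v : V, Path (p u) (p v)), Finite V → Drw G p γ → PG G

/-! ### Colours and relative cliques -/

/-- colours -/
abbrev Col (n m : ℕ) : Type := Fin n × Bool ⊕ Fin m

/-- the colour seen from the other end -/
def flip {n m : ℕ} : Col n m → Col n m :=
  Sum.elim (fun a : Fin n × Bool => (Sum.inl (a.1, !a.2) : Fin n × Bool ⊕ Fin m))
    (fun j : Fin m => (Sum.inr j : Fin n × Bool ⊕ Fin m))

/-- a coloured mixed graph -/
def IsG {n m : ℕ} {V : Type} (c : V → V → Option (Col n m)) : Prop :=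
  (∀ u, c u u = none) ∧ ∀ u v, c v u = Option.map flip (c u v)

/-- relative cliques -/
def RCl {n m : ℕ} {V : Type} (c : V → V → Option (Col n m)) (R : Finset V) : Prop :=
  ∀ (W : Type) (d : W → W → Option (Col n m)), (∀ w, d w w = none) →
    (∀ w x, d x w = Option.map flip (d w x)) →
    ∀ f : V → W, (∀ u v t, c u v = some t → d (f u) (f v) = some t) → Set.InjOn f (R : Set V)

/-- pairwise linked sets -/
def PL {n m : ℕ} {V : Type} (c : V → V → Option (Col n m)) (R : Finset V) : Prop :=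
  ∀ u ∈ R, ∀ v ∈ R, u ≠ v → c u v ≠ none ∨
    ∃ w, c w u ≠ none ∧ c w v ≠ none ∧ c w u ≠ c w v

/-- CH: the characterisation of relative cliques -/
def CHStmt : Prop := ∀ (n m : ℕ) (V : Type) (c : V → V → Option (Col n m)) (R : Finset V),
  IsG c → (RCl c R ↔ PL c R)

/-! ### The lower bound -/

/-- the points: a hub below a parabola -/
noncomputable def pt (L : ℝ) (k : ℕ) : ℝ × ℝ := if k = 0 then (0, -L) else ((k : ℝ), (k : ℝ) ^ 2)

/-- LG1: the hub edges do not meet other edges. -/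
def LG1Stmt : Prop := ∀ (N : ℕ) (L : ℝ), ((N : ℝ) + 1) ^ 2 ≤ L →
  (∀ i j, i ≤ N → j ≤ N → pt L i = pt L j → i = j) ∧
  (∀ j w, 1 ≤ j → j ≤ N → w ≤ N → w ≠ j → w ≠ 0 → pt L w ∉ segment ℝ (pt L 0) (pt L j)) ∧
  (∀ j k z, 1 ≤ j → j ≤ N → 1 ≤ k → k ≤ N → j ≠ k → z ∈ segment ℝ (pt L 0) (pt L j) →
    z ∈ segment ℝ (pt L 0) (pt L k) → z = pt L 0) ∧
  (∀ j k l z, 1 ≤ j → j ≤ N → 1 ≤ k → k ≤ N → 1 ≤ l → l ≤ N → z ∈ segment ℝ (pt L 0) (pt L j) →
    z ∈ segment ℝ (pt L k) (pt L l) → z = pt L j)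

/-- LG2: chords -/
def LG2Stmt : Prop := ∀ (L : ℝ), 0 ≤ L →
  (∀ i j w, 1 ≤ i → i < j → (pt L w ∈ segment ℝ (pt L i) (pt L j)) → w = i ∨ w = j) ∧
  (∀ i j k l z, 1 ≤ i → i < j → 1 ≤ k → k < l → ¬ (i < k ∧ k < j ∧ j < l) →
    ¬ (k < i ∧ i < l ∧ l < j) → (i, j) ≠ (k, l) → z ∈ segment ℝ (pt L i) (pt L j) →
    z ∈ segment ℝ (pt L k) (pt L l) → (z = pt L i ∨ z = pt L j) ∧ (z = pt L k ∨ z = pt L l))

/-- an owner structure on `0, ..., N`: `own i j = some l` means that the edge `i j` has label `l`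
at `i`; the label at `j` is free -/
structure Own (p N : ℕ) (own : ℕ → ℕ → Option (Fin p)) : Prop where
  irr : ∀ i, own i i = none
  one : ∀ i j, own i j ≠ none → own j i = none
  hub : ∀ i, own i 0 = none
  link : ∀ i j, i ≤ N → j ≤ N → i ≠ j → own i j ≠ none ∨ own j i ≠ none ∨
    ∃ w ≤ N, ∃ l l' : Fin p, l ≠ l' ∧ own w i = some l ∧ own w j = some l'
  nonc : ∀ i j k l, (own i j ≠ none ∨ own j i ≠ none) → (own k l ≠ none ∨ own l k ≠ none) →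
    1 ≤ i → i < k → k < j → j < l → False

/-- LO: the owner structure exists -/
def LOStmt : Prop := ∀ p : ℕ, 2 ≤ p → ∃ own, Own p (3 * p ^ 2 + p) own

/-- LB: the lower bound -/
def LBStmt : Prop := ∀ n m : ℕ, 2 ≤ 2 * n + m →
  ∃ (V : Type) (_ : Finite V) (c : V → V → Option (Fin n × Bool ⊕ Fin m)),
    (∀ u, c u u = none) ∧ (∀ u v, c v u = Option.map flip (c u v)) ∧
    (∃ p : V → ℝ × ℝ, Function.Injective p ∧
      ∃ γ : ∀ u v : V, Path (p u) (p v),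
        (∀ u v, c u v ≠ none → Function.Injective (γ u v)) ∧
        (∀ u v w, c u v ≠ none → ∀ t : unitInterval,
            0 < (t : ℝ) → (t : ℝ) < 1 → γ u v t ≠ p w) ∧
        (∀ u v x y, c u v ≠ none → c x y ≠ none → ¬(x = u ∧ y = v) →
            ¬(x = v ∧ y = u) → ∀ s t : unitInterval,
            0 < (s : ℝ) → (s : ℝ) < 1 → γ u v s ≠ γ x y t)) ∧
    ∃ R : Finset V, RCl c R ∧ R.card = 3 * (2 * n + m) ^ 2 + (2 * n + m) + 1

end Pool.Agent.H6.RCQ
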