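import Pool.Agent.H6.RCQ.Stmts4
import Pool.Agent.H6.RCQ.Stmts5

/-!
# Project RCQ: the final statement from the upper bound, planarity and the lower bound
-/

set_option autoImplicit false

namespace Pool.Agent.H6.RCQ.Final

open Pool.Agent.H39.RC
open Pool.Agent.H6.RCQ
open Classical

/-- the number of colours -/
noncomputable def ec (n m : ℕ) : Col n m ≃ Fin (2 * n + m) :=
  Fintype.equivFinOfCardEq (by
    simp [Col, Fintype.card_sum, Fintype.card_prod, Fintype.card_bool]; ring)

theorem upper (hUB : UBStmt) (hTPG : TPGStmt) (hCH : CHStmt) (n m : ℕ) (hnm : (n, m) ≠ (0, 1))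
    (V : Type) (hfin : Finite V) (c : V → V → Option (Col n m)) (h1 : ∀ u, c u u = none)
    (h2 : ∀ u v, c v u = Option.map flip (c u v))
    (h3 : ∃ p : V → ℝ × ℝ, Function.Injective p ∧
      ∃ γ : ∀ u v : V, Path (p u) (p v),
        (∀ u v, c u v ≠ none → Function.Injective (γ u v)) ∧
        (∀ u v w, c u v ≠ none → ∀ t : unitInterval,
            0 < (t : ℝ) → (t : ℝ) < 1 → γ u v t ≠ p w) ∧
        (∀ u v x y, c u v ≠ none → c x y ≠ none → ¬(x = u ∧ y = v) →
            ¬(x = v ∧ y = u) → ∀ s t : unitInterval,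
            0 < (s : ℝ) → (s : ℝ) < 1 → γ u v s ≠ γ x y t))
    (R : Finset V) (hR : RCl c R) : R.card ≤ 3 * (2 * n + m) ^ 2 + (2 * n + m) + 1 := by
  have hPL : PL c R := (hCH n m V c R ⟨h1, h2⟩).1 hR
  rcases Nat.lt_or_ge (2 * n + m) 2 with hp | hp
  · have hnm0 : n = 0 ∧ m = 0 := by
      by_contra hcon
      apply hnm
      have : n = 0 := by omega
      have : m = 1 := by omega
      simp_all
    obtain ⟨rfl, rfl⟩ := hnm0
    have hemp : ∀ u v, c u v = none := by
      intro u v
      rcases hc : c u v with _ | t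
      · rfl
      · rcases t with ⟨i, _⟩ | j
        · exact i.elim0
        · exact j.elim0
    have : R.card ≤ 1 := by
      rw [Finset.card_le_one]
      intro u hu v hv
      by_contra hne
      rcases hPL u hu v hv hne with h | ⟨w, h, _⟩
      · exact h (hemp _ _)
      · exact h (hemp _ _)
    omega
  · let G : SimpleGraph V :=
      { Adj := fun u v => c u v ≠ none
        symm := ⟨fun u v h => by
          rw [h2 u v]
          intro h'
          exact h (Option.map_eq_none_iff.1 h')⟩
        loopless := ⟨fun u h => h (h1 u)⟩ }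
    obtain ⟨p, hp1, γ, hg1, hg2, hg3⟩ := h3
    have hPG : PG G := hTPG V G p γ hfin ⟨hp1, hg1, hg2, hg3⟩
    let lab : V → V → Fin (2 * n + m) := fun w v =>
      match c w v with
      | some t => ec n m t
      | none => ⟨0, by omega⟩
    refine hUB V G (2 * n + m) lab R hfin hp ⟨hPG, ?_⟩
    intro u hu v hv hne
    rcases hPL u hu v hv hne with h | ⟨w, hwu, hwv, hwne⟩
    · exact Or.inl h
    · refine Or.inr ⟨w, by simp, hwu, hwv, ?_⟩
      obtain ⟨s, hs⟩ := Option.ne_none_iff_exists'.1 hwu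
      obtain ⟨t, ht⟩ := Option.ne_none_iff_exists'.1 hwv
      simp only [lab, hs, ht]
      intro h
      apply hwne
      rw [hs, ht, (ec n m).injective h]

theorem lower (hLB : LBStmt) (n m : ℕ) (hnm : (n, m) ≠ (0, 1)) :
    ∃ (V : Type) (_ : Finite V) (c : V → V → Option (Fin n × Bool ⊕ Fin m)),
    (∀ u, c u u = none) ∧ (∀ u v, c v u = Option.map flip (c u v)) ∧
    (∃ p : V → ℝ × ℝ, Function.Injective p ∧
      ∃ γ : ∀ u v : V, Path (p u) (p v),
        (∀ u v, c u v ≠ none → Function.Injective (γ u v)) ∧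
        (∀ u v w, c u v ≠ none → ∀ t : unitInterval,
            0 < (t : ℝ) → (t : ℝ) < 1 → γ u v t ≠ p w) ∧
        (∀ u v x y, c u v ≠ none → c x y ≠ none → ¬(x = u ∧ y = v) →
            ¬(x = v ∧ y = u) → ∀ s t : unitInterval,
            0 < (s : ℝ) → (s : ℝ) < 1 → γ u v s ≠ γ x y t)) ∧
    ∃ R : Finset V, RCl c R ∧ R.card = 3 * (2 * n + m) ^ 2 + (2 * n + m) + 1 := by
  rcases Nat.lt_or_ge (2 * n + m) 2 with hp | hp
  · have hnm0 : n = 0 ∧ m = 0 := by
      by_contra hcon
      apply hnm
      have : n = 0 := by omega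
      have : m = 1 := by omega
      simp_all
    obtain ⟨rfl, rfl⟩ := hnm0
    refine ⟨Unit, inferInstance, fun _ _ => none, fun _ => rfl, fun _ _ => rfl,
      ⟨fun _ => (0, 0), fun _ _ _ => rfl, fun _ _ => Path.refl _, ?_, ?_, ?_⟩, Finset.univ, ?_, ?_⟩
    · intro u v h; exact absurd rfl h
    · intro u v w h; exact absurd rfl h
    · intro u v x y h; exact absurd rfl h
    · intro W d _ _ f _ x _ y _ _
      rfl
    · simp
  · exact hLB n m hp

end Pool.Agent.H6.RCQ.Final
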