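import Pool.Agent.H6.RCQ.Stmts3

set_option autoImplicit false

namespace Pool.Agent.H6.RCQ.LF

open Pool.Agent.H39.RC
open Pool.Agent.H6.RCQ

theorem lf : LFStmt := by
  intro V G p lab R h
  refine ⟨h.pg, fun u hu v hv hne => ?_⟩
  rcases h.lk u hu v hv hne with h' | ⟨w, hw, h1, h2, -⟩
  · exact Or.inl h'
  · exact Or.inr ⟨w, hw, h1.symm, h2⟩

end Pool.Agent.H6.RCQ.LF
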