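import Pool.Agent.H6.RCQ.Stmts5

set_option autoImplicit false

namespace Pool.Agent.H6.RCQ.TPG

open Pool.Agent.H39.RC
open Pool.Agent.H6.RCQ

theorem tpg (h5 : TP5Stmt) (h9 : SM9Stmt) : TPGStmt := by
  intro V G p γ hfin hd
  obtain ⟨F, hF, hm⟩ := h5 V G p γ hfin hd
  exact h9 V G F hfin hF hm

end Pool.Agent.H6.RCQ.TPG
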