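import Pool.Agent.H6.RCQ.Defs

/-!
# Project RCQ: statements, part 4 (Case B: small degrees, counting)
-/

set_option autoImplicit false

namespace Pool.Agent.H6.RCQ

open Pool.Agent.H39.RC
open Classical

variable {V : Type}

/-! ### Separators -/

/-- the four (or three) vertices of a separator -/
def Q4 (x h a b : V) : Set V := {x, h, a, b}

/-- GA: the gate inequality. `I` and `O` are separated by `S` -/
def GAStmt : Prop := ∀ (V : Type) (G : SimpleGraph V) (R S I O : Finset V), Lf G R →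
  I ⊆ R \ S → O ⊆ R \ S → (∀ i ∈ I, ∀ o ∈ O, ¬ Jn G ↑S i o) →
  I.card * O.card ≤ ∑ s ∈ S, (I.filter (fun i => G.Adj s i)).card *
    (O.filter (fun o => G.Adj s o)).card

/-- GB: the degree inequality at a separator vertex -/
def GBStmt : Prop := ∀ (V : Type) (G : SimpleGraph V) (R S I O : Finset V) (s : V), s ∈ S →
  I ⊆ R \ S → O ⊆ R \ S → Disjoint I O →
  (I.filter (fun i => G.Adj s i)).card + (O.filter (fun o => G.Adj s o)).card +
    ((R ∩ S).filter (fun v => G.Adj s v)).card ≤ (D G R s).card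

/-- GT: separated classes. If `i` is not joined to `o`, the class of `i` and the rest are
separated and partition `R \ S` -/
def GTStmt : Prop := ∀ (V : Type) (G : SimpleGraph V) (R S : Finset V) (i : V), i ∈ R \ S →
  ∃ I O : Finset V, I ∪ O = R \ S ∧ Disjoint I O ∧ i ∈ I ∧ (∀ v ∈ R \ S, v ∈ I ↔ Jn G ↑S i v) ∧
    ∀ i' ∈ I, ∀ o ∈ O, ¬ Jn G ↑S i' o

/-- TE: triangles do not separate `R` -/
def TEStmt : Prop := ∀ (V : Type) (G : SimpleGraph V) (R : Finset V) (x a b : V), S6 G R 6 →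
  a ∈ R → b ∈ R → G.Adj x a → G.Adj x b → G.Adj a b → ∀ r ∈ R, ∀ s ∈ R,
  r ≠ x → r ≠ a → r ≠ b → s ≠ x → s ≠ a → s ≠ b → Jn G {x, a, b} r s

/-- the vertex `i` is isolated by `x, h, a, b` -/
def Iso (G : SimpleGraph V) (R : Finset V) (x h a b i : V) : Prop :=
  i ∈ R ∧ i ∉ Q4 x h a b ∧ ∀ r ∈ R, r ∉ Q4 x h a b → r ≠ i → ¬ Jn G (Q4 x h a b) i r

/-- QT: 4-cycles isolate at most one vertex of `R` (degrees at most six) -/
def QTStmt : Prop := ∀ (V : Type) (G : SimpleGraph V) (R : Finset V) (x h a b : V), S6 G R 6 →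
  x ≠ h → a ≠ b → a ∈ R → b ∈ R → G.Adj x a → G.Adj x b → G.Adj h a → G.Adj h b →
  (∀ i ∈ R, ∀ o ∈ R, ∀ o' ∈ R, i ∉ Q4 x h a b → o ∉ Q4 x h a b → o' ∉ Q4 x h a b → o ≠ o' →
    ¬ Jn G (Q4 x h a b) i o → ¬ Jn G (Q4 x h a b) i o' → Iso G R x h a b i) ∧
  (∀ i, Iso G R x h a b i → G.Adj a i ∧ G.Adj b i ∧ (G.Adj x i ∨ G.Adj h i) ∧
    ((x ∈ R ∨ h ∈ R) → G.Adj x i ∧ G.Adj h i)) ∧
  (∀ i i', Iso G R x h a b i → Iso G R x h a b i' → i = i')

/-- QE: 4-cycles do not separate `R` (degrees at most five) -/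
def QEStmt : Prop := ∀ (V : Type) (G : SimpleGraph V) (R : Finset V) (x h a b : V), S6 G R 5 →
  x ≠ h → a ≠ b → a ∈ R → b ∈ R → G.Adj x a → G.Adj x b → G.Adj h a → G.Adj h b →
  ∀ r ∈ R, ∀ s ∈ R, r ∉ Q4 x h a b → s ∉ Q4 x h a b → Jn G (Q4 x h a b) r s

/-! ### Cyclic orders -/

/-- CI: the neighbours can be enumerated in cyclic order -/
def CIStmt : Prop := ∀ (V : Type) (G : SimpleGraph V) (x : V) (Dx : Finset V), PG G →
  (∀ d ∈ Dx, G.Adj x d) → ∃ t, Circ G x Dx Dx.card t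

/-- CR: rotations and reflections -/
def CRStmt : Prop := ∀ (V : Type) (G : SimpleGraph V) (x : V) (Dx : Finset V) (n : ℕ) (t : ℕ → V),
  Circ G x Dx n t → Circ G x Dx n (fun i => t ((i + 1) % n)) ∧
    Circ G x Dx n (fun i => t (n - 1 - i))

/-! ### Degree six -/

/-- W6: windows for degree six -/
structure W6 (G : SimpleGraph V) (R : Finset V) (x : V) (t : ℕ → V) : Prop where
  s6 : S6 G R 6
  circ : Circ G x (D G R x) 6 t
  adj : ∀ i < 6, ∀ j < 6, G.Adj (t i) (t j) → j = (i + 1) % 6 ∨ i = (j + 1) % 6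
  win : ∀ h, h ≠ x → h ∉ D G R x → ∃ m < 6, ∀ i < 6, G.Adj h (t i) →
    i = m ∨ i = (m + 1) % 6 ∨ i = (m + 2) % 6
  iso : ∀ h, h ≠ x → h ∉ D G R x → ∀ i < 6, G.Adj h (t i) → G.Adj h (t ((i + 2) % 6)) →
    G.Adj (t ((i + 1) % 6)) (t i) ∧ G.Adj (t ((i + 1) % 6)) (t ((i + 2) % 6)) ∧
    (∀ r ∈ R, G.Adj r (t ((i + 1) % 6)) → r = x ∨ r = h ∨ r = t i ∨ r = t ((i + 2) % 6)) ∧
    (h ∈ R → G.Adj h (t ((i + 1) % 6))) ∧
    ∀ w ∈ U G R x, w ≠ h → G.Adj w (t i) ∨ G.Adj w (t ((i + 2) % 6)) ∨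
      (G.Adj w h ∧ G.Adj h (t ((i + 1) % 6)))

/-- W6S: windows exist -/
def W6SStmt : Prop := ∀ (V : Type) (G : SimpleGraph V) (R : Finset V) (x : V) (t : ℕ → V),
  S6 G R 6 → Circ G x (D G R x) 6 t → W6 G R x t

/-- the canonical position: centres `t 1` and `t 4`, and two non-adjacent vertices `u`, `v` -/
structure K6 (G : SimpleGraph V) (R : Finset V) (x : V) (t : ℕ → V) (u v : V) : Prop
    extends W6 G R x t where
  c10 : G.Adj (t 1) (t 0)
  c12 : G.Adj (t 1) (t 2)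
  c43 : G.Adj (t 4) (t 3)
  c45 : G.Adj (t 4) (t 5)
  mu : u ∈ U G R x
  mv : v ∈ U G R x
  nuv : u ≠ v
  auv : ¬ G.Adj u v

/-- `c` is a common neighbour of `u`, `v` adjacent to `t i`, `t j`, `t k` -/
structure Hub (G : SimpleGraph V) (R : Finset V) (x u v c a b d : V) : Prop where
  ne : c ≠ x
  out : c ∉ D G R x
  cu : G.Adj c u
  cv : G.Adj c v
  ca : G.Adj c a
  cb : G.Adj c b
  cd : G.Adj c d

/-- K6A: both centres are bad -/
def K6AStmt : Prop := ∀ (V : Type) (G : SimpleGraph V) (R : Finset V) (x : V) (t : ℕ → V)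
  (u v : V), K6 G R x t u v → Bad G x u v (t 1) → Bad G x u v (t 4) → False

/-- K6B: two hubs -/
def K6BStmt : Prop := ∀ (V : Type) (G : SimpleGraph V) (R : Finset V) (x : V) (t : ℕ → V)
  (u v c c' : V), K6 G R x t u v → Hub G R x u v c (t 0) (t 1) (t 2) →
  Hub G R x u v c' (t 3) (t 4) (t 5) → False

/-- K6D: one hub, the other centre adjacent to `u` and `v` -/
def K6DStmt : Prop := ∀ (V : Type) (G : SimpleGraph V) (R : Finset V) (x : V) (t : ℕ → V)
  (u v c : V), K6 G R x t u v → Hub G R x u v c (t 0) (t 1) (t 2) → G.Adj u (t 4) →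
  G.Adj v (t 4) → False

/-- K6E: one hub, the other centre bad -/
def K6EStmt : Prop := ∀ (V : Type) (G : SimpleGraph V) (R : Finset V) (x : V) (t : ℕ → V)
  (u v c : V), K6 G R x t u v → Hub G R x u v c (t 0) (t 1) (t 2) → Bad G x u v (t 4) → False

/-- K6F: one centre adjacent to `u` and `v`, the other centre bad -/
def K6FStmt : Prop := ∀ (V : Type) (G : SimpleGraph V) (R : Finset V) (x : V) (t : ℕ → V)
  (u v : V), K6 G R x t u v → G.Adj u (t 1) → G.Adj v (t 1) → Bad G x u v (t 4) → False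

/-- D6: there are no vertices of degree six -/
def D6Stmt : Prop := ∀ (V : Type) (G : SimpleGraph V) (R : Finset V), S6 G R 6 → DegLe G R 5

/-! ### Degree five -/

/-- K23: three common neighbours of two vertices of `R` -/
def K23Stmt : Prop := ∀ (V : Type) (G : SimpleGraph V) (R : Finset V)
  (a b y1 y2 y3 r1 r2 : V), S6 G R 5 → a ∈ R → b ∈ R → a ≠ b → y1 ≠ y2 → y1 ≠ y3 → y2 ≠ y3 →
  G.Adj a y1 → G.Adj a y2 → G.Adj a y3 → G.Adj b y1 → G.Adj b y2 → G.Adj b y3 → y3 ∈ R →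
  r1 ∈ R → r2 ∈ R → G.Adj y1 r1 → G.Adj y2 r2 → r1 ≠ a → r1 ≠ b → r1 ≠ y1 → r1 ≠ y2 → r1 ≠ y3 →
  r2 ≠ a → r2 ≠ b → r2 ≠ y1 → r2 ≠ y2 → r2 ≠ y3 → False

/-- windows for degree five -/
structure W5 (G : SimpleGraph V) (R : Finset V) (x : V) (t : ℕ → V) : Prop where
  s5 : S6 G R 5
  circ : Circ G x (D G R x) 5 t
  adj : ∀ i < 5, ∀ j < 5, G.Adj (t i) (t j) → j = (i + 1) % 5 ∨ i = (j + 1) % 5
  win : ∀ h, h ≠ x → h ∉ D G R x → ∃ m < 5, ∀ i < 5, G.Adj h (t i) → i = m ∨ i = (m + 1) % 5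

/-- W5S -/
def W5SStmt : Prop := ∀ (V : Type) (G : SimpleGraph V) (R : Finset V) (x : V) (t : ℕ → V),
  S6 G R 5 → Circ G x (D G R x) 5 t → W5 G R x t

/-- the canonical position for degree five -/
structure K5 (G : SimpleGraph V) (R : Finset V) (x : V) (t : ℕ → V) (u v : V) : Prop
    extends W5 G R x t where
  c10 : G.Adj (t 1) (t 0)
  c12 : G.Adj (t 1) (t 2)
  mu : u ∈ U G R x
  mv : v ∈ U G R x
  nuv : u ≠ v
  auv : ¬ G.Adj u v

/-- K5B: the centre is adjacent to `u`, `v`; a hub for `t 3`, `t 4` -/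
def K5BStmt : Prop := ∀ (V : Type) (G : SimpleGraph V) (R : Finset V) (x : V) (t : ℕ → V)
  (u v c : V), K5 G R x t u v → G.Adj u (t 1) → G.Adj v (t 1) →
  Hub G R x u v c (t 3) (t 4) (t 4) → False

/-- K5C: the centre is adjacent to `u`, `v`; `t 3` is bad -/
def K5CStmt : Prop := ∀ (V : Type) (G : SimpleGraph V) (R : Finset V) (x : V) (t : ℕ → V)
  (u v : V), K5 G R x t u v → G.Adj u (t 1) → G.Adj v (t 1) → Bad G x u v (t 3) → False

/-- K5D: the centre is bad; a hub for `t 3`, `t 4` -/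
def K5DStmt : Prop := ∀ (V : Type) (G : SimpleGraph V) (R : Finset V) (x : V) (t : ℕ → V)
  (u v c : V), K5 G R x t u v → Bad G x u v (t 1) → Hub G R x u v c (t 3) (t 4) (t 4) → False

/-- K5E: the centre is bad; `t 3` is adjacent to `u`, `v` and `t 4` -/
def K5EStmt : Prop := ∀ (V : Type) (G : SimpleGraph V) (R : Finset V) (x : V) (t : ℕ → V)
  (u v : V), K5 G R x t u v → Bad G x u v (t 1) → G.Adj u (t 3) → G.Adj v (t 3) → False

/-- K5F: `t 1` and `t 3` are bad, `u ~ t 1` -/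
def K5FStmt : Prop := ∀ (V : Type) (G : SimpleGraph V) (R : Finset V) (x : V) (t : ℕ → V)
  (u v : V), K5 G R x t u v → Bad G x u v (t 1) → Bad G x u v (t 3) → G.Adj (t 3) (t 4) →
  G.Adj u (t 1) → False

/-- K5G: `t 1` and `t 3` are bad, neither `u` nor `v` is adjacent to `t 1` -/
def K5GStmt : Prop := ∀ (V : Type) (G : SimpleGraph V) (R : Finset V) (x : V) (t : ℕ → V)
  (u v : V), K5 G R x t u v → Bad G x u v (t 1) → Bad G x u v (t 3) → G.Adj (t 3) (t 4) →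
  ¬ G.Adj u (t 1) → ¬ G.Adj v (t 1) → False

/-- D5: there are no vertices of degree five -/
def D5Stmt : Prop := ∀ (V : Type) (G : SimpleGraph V) (R : Finset V), S6 G R 5 → DegLe G R 4

/-! ### Counting -/

/-- ordered pairs of different elements of `R` with a property -/
noncomputable def pr (R : Finset V) (P : V → V → Prop) : ℕ :=
  ((R ×ˢ R).filter (fun e => e.1 ≠ e.2 ∧ P e.1 e.2)).card

/-- CA1: averaging over the contractions of the vertices outside `R` -/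
def CV1Stmt : Prop := ∀ (V : Type) (G : SimpleGraph V) (R : Finset V) (j : ℕ), Finite V → PG G →
  3 ≤ R.card → 2 ≤ j → (∀ w, w ∉ R → (D G R w).card ≤ j) →
  j * pr R (fun a b => G.Adj a b) +
    2 * pr R (fun a b => ¬ G.Adj a b ∧ ∃ w, w ∉ R ∧ G.Adj w a ∧ G.Adj w b) + 12 * j ≤
    6 * j * R.card

/-- CV2: pairs linked through a vertex of `R` -/
def CV2Stmt : Prop := ∀ (V : Type) (G : SimpleGraph V) (p : ℕ) (lab : V → V → Fin p)
  (R : Finset V) (k : ℕ),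
  (∀ w ∈ R, pr (D G R w) (fun a b => lab w a ≠ lab w b) ≤ k * (D G R w).card) →
  pr R (fun a b => ∃ w, w ∈ R ∧ G.Adj w a ∧ G.Adj w b ∧ lab w a ≠ lab w b) ≤
    k * pr R (fun a b => G.Adj a b)

/-- CV3: pairs with different labels -/
def CV3Stmt : Prop := ∀ (V : Type) (p : ℕ) (f : V → Fin p) (S : Finset V),
  (p = 2 → S.card ≤ 4 → pr S (fun a b => f a ≠ f b) ≤ 2 * S.card) ∧
  (p = 3 → S.card ≤ 6 → pr S (fun a b => f a ≠ f b) ≤ 4 * S.card) ∧
  (S.card ≤ 6 → pr S (fun a b => f a ≠ f b) ≤ 5 * S.card)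

/-- CV4: the number of pairs -/
def CV4Stmt : Prop := ∀ (V : Type) (G : SimpleGraph V) (p : ℕ) (lab : V → V → Fin p)
  (R : Finset V), Cfg p G lab R → R.card * (R.card - 1) ≤ pr R (fun a b => G.Adj a b) +
    pr R (fun a b => ¬ G.Adj a b ∧ ∃ w, w ∉ R ∧ G.Adj w a ∧ G.Adj w b) +
    pr R (fun a b => ∃ w, w ∈ R ∧ G.Adj w a ∧ G.Adj w b ∧ lab w a ≠ lab w b)

/-- C2: `p = 2`, degrees at most four -/
def C2Stmt : Prop := ∀ (V : Type) (G : SimpleGraph V) (lab : V → V → Fin 2) (R : Finset V),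
  Finite V → CB 2 G lab R → DegLe G R 4 → False

/-- C3: `p ≥ 3`, degrees at most six -/
def C3Stmt : Prop := ∀ (V : Type) (G : SimpleGraph V) (p : ℕ) (lab : V → V → Fin p)
  (R : Finset V), Finite V → CB p G lab R → 3 ≤ p → DegLe G R 6 → False

/-- UB: the upper bound -/
def UBStmt : Prop := ∀ (V : Type) (G : SimpleGraph V) (p : ℕ) (lab : V → V → Fin p)
  (R : Finset V), Finite V → 2 ≤ p → Cfg p G lab R → R.card ≤ 3 * p ^ 2 + p + 1

end Pool.Agent.H6.RCQ
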