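import Pool.Agent.H6.RCQ.Stmts2
import Pool.Agent.H6.RCQ.Stmts3
import Pool.Agent.H6.RCQ.Stmts4

/-!
# Project RCQ: the upper bound, assembled from the cases
-/

set_option autoImplicit false

namespace Pool.Agent.H6.RCQ.UB

open Pool.Agent.H39.RC
open Pool.Agent.H6.RCQ
open Classical

theorem ub (hA : AStmt) (hBB : BBStmt) (hC3 : C3Stmt) (hES6 : ES6Stmt) (hD6 : D6Stmt)
    (hD5 : D5Stmt) (hC2 : C2Stmt) : UBStmt := by
  intro V G p lab R hfin hp hcfg
  by_contra hc
  push Not at hc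
  obtain ⟨R', hR', hcard⟩ := Finset.exists_subset_card_eq
    (show 3 * p ^ 2 + p + 2 ≤ R.card by omega)
  have hcfg' : Cfg p G lab R' :=
    ⟨hcfg.pg, fun u hu v hv hne => hcfg.lk u (hR' hu) v (hR' hv) hne⟩
  by_cases hco : Co4 G R'
  · have hCB : CB p G lab R' := ⟨hcfg', hp, hcard, hco⟩
    by_cases h3 : 3 ≤ p
    · exact hC3 V G p lab R' hfin hCB h3 (hBB V G p lab R' hCB h3)
    · have hp2 : p = 2 := by omega
      subst hp2
      have hs := hES6 V G lab R' hCB
      have h5 := hD6 V G R' hs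
      have hs5 : S6 G R' 5 := ⟨hs.lf, hs.card, h5, hs.cc⟩
      exact hC2 V G lab R' hfin hCB (hD5 V G R' hs5)
  · unfold Co4 at hco
    push Not at hco
    obtain ⟨x0, y0, hne0, h0⟩ := hco
    obtain ⟨q, hq, hmax⟩ := Set.exists_max_image {e : V × V | e.1 ≠ e.2}
      (fun e => (CN G R' e.1 e.2).card) (Set.toFinite _) ⟨(x0, y0), hne0⟩
    exact hA V G p lab R' q.1 q.2 ⟨hcfg', hp, hcard, hq, by
      have := hmax (x0, y0) hne0
      simp only at this
      omega, fun x' y' hne => hmax (x', y') hne⟩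

end Pool.Agent.H6.RCQ.UB
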