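import Pool.Agent.H13.RCQ.A2F
import Pool.Agent.H13.RCQ.A2I
import Pool.Agent.H13.RCQ.A2N
import Pool.Agent.H22.RCQ.B12
import Pool.Agent.H22.RCQ.CO4
import Pool.Agent.H22.RCQ.T8C
import Pool.Agent.H28.RCQ.LB
import Pool.Agent.H28.RCQ.SM3
import Pool.Agent.H28.RCQ.SM4
import Pool.Agent.H30.RCQ.CV
import Pool.Agent.H31.RCQ.E9
import Pool.Agent.H31.RCQ.GC
import Pool.Agent.H31.RCQ.PE6
import Pool.Agent.H33.RCQ.K6B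
import Pool.Agent.H33.RCQ.K6D
import Pool.Agent.H33.RCQ.K6E
import Pool.Agent.H37.RCQ.QQ
import Pool.Agent.H37.RCQ.TE
import Pool.Agent.H38.RCQ.TP1
import Pool.Agent.H38.RCQ.TP2
import Pool.Agent.H4.RCQ.CO3
import Pool.Agent.H4.RCQ.K6A
import Pool.Agent.H4.RCQ.T8A
import Pool.Agent.H42.RCQ.A2B
import Pool.Agent.H42.RCQ.BB
import Pool.Agent.H42.RCQ.LG1
import Pool.Agent.H42.RCQ.LG2
import Pool.Agent.H42.RCQ.LO
import Pool.Agent.H43.RCQ.M.COB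
import Pool.Agent.H43.RCQ.M.GB
import Pool.Agent.H44.RCQ.K5B
import Pool.Agent.H44.RCQ.SM2
import Pool.Agent.H44.RCQ.W5S
import Pool.Agent.H45.RCQ.K5C
import Pool.Agent.H45.RCQ.K5D
import Pool.Agent.H45.RCQ.K5E
import Pool.Agent.H5.RCQ.A
import Pool.Agent.H5.RCQ.A5
import Pool.Agent.H5.RCQ.AB
import Pool.Agent.H5.RCQ.AC
import Pool.Agent.H5.RCQ.AF
import Pool.Agent.H5.RCQ.AFF
import Pool.Agent.H5.RCQ.AK
import Pool.Agent.H5.RCQ.AKEY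
import Pool.Agent.H5.RCQ.AL
import Pool.Agent.H5.RCQ.AN0
import Pool.Agent.H5.RCQ.AS
import Pool.Agent.H5.RCQ.DEG
import Pool.Agent.H53.RCQ.CV1
import Pool.Agent.H53.RCQ.GL
import Pool.Agent.H53.RCQ.SM8
import Pool.Agent.H6.RCQ.C2
import Pool.Agent.H6.RCQ.ES6
import Pool.Agent.H6.RCQ.LF
import Pool.Agent.H6.RCQ.TPG
import Pool.Agent.H62.RCQ.COA
import Pool.Agent.H62.RCQ.PE1
import Pool.Agent.H62.RCQ.R4L
import Pool.Agent.H62.RCQ.RM1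
import Pool.Agent.H62.RCQ.STAR
import Pool.Agent.H65.RCQ.R3N
import Pool.Agent.H65.RCQ.R4B
import Pool.Agent.H65.RCQ.R5A
import Pool.Agent.H65.RCQ.RC
import Pool.Agent.H67.RCQ.D5
import Pool.Agent.H67.RCQ.D6
import Pool.Agent.H7.RCQ.AE
import Pool.Agent.H7.RCQ.AT
import Pool.Agent.H7.RCQ.DOM
import Pool.Agent.H7.RCQ.E7
import Pool.Agent.H7.RCQ.E8B
import Pool.Agent.H7.RCQ.PE2
import Pool.Agent.H7.RCQ.PE3
import Pool.Agent.H7.RCQ.PE4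
import Pool.Agent.H70.RCQ.GT
import Pool.Agent.H70.RCQ.TP5
import Pool.Agent.H76.RCQ.A3P
import Pool.Agent.H76.RCQ.C3
import Pool.Agent.H76.RCQ.CR
import Pool.Agent.H79.RCQ.CH
import Pool.Agent.H79.RCQ.TP4
import Pool.Agent.H79.RCQ.W6S
import Pool.Agent.H80.RCQ.GA
import Pool.Agent.H80.RCQ.K23
import Pool.Agent.H80.RCQ.SM1
import Pool.Agent.H80.RCQ.SM5
import Pool.Agent.H80.RCQ.SM6
import Pool.Agent.H80.RCQ.SM7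
import Pool.Agent.H80.RCQ.SM9
import Pool.Agent.H80.RCQ.TP3
import Pool.Agent.H83.RCQ.B10
import Pool.Agent.H83.RCQ.RM2
import Pool.Agent.H83.RCQ.T8B
import Pool.Agent.H84.RCQ.K5F
import Pool.Agent.H84.RCQ.K5G
import Pool.Agent.H84.RCQ.K6F
import Pool.Agent.H87.RCQ.AZ
import Pool.Agent.H87.RCQ.B6P
import Pool.Agent.H87.RCQ.COM
import Pool.Agent.H87.RCQ.FC
import Pool.Agent.H87.RCQ.PE5
import Pool.Agent.H87.RCQ.R3A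
import Pool.Agent.H6.RCQ.UB
import Pool.Agent.H6.RCQ.Final

/-!
# Project RCQ: the chain of modules
-/

set_option autoImplicit false

namespace Pool.Agent.H6.RCQ.Chain

open Pool.Agent.H6.RCQ

theorem cPE1 : PE1Stmt := _root_.Pool.Agent.H62.RCQ.PE1.pe1
theorem cPE2 : PE2Stmt := _root_.Pool.Agent.H7.RCQ.PE2.pe2
theorem cPE3 : PE3Stmt := _root_.Pool.Agent.H7.RCQ.PE3.pe3 cPE1
theorem cPE4 : PE4Stmt := _root_.Pool.Agent.H7.RCQ.PE4.pe4 cPE3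
theorem cPE5 : PE5Stmt := _root_.Pool.Agent.H87.RCQ.PE5.pe5 cPE4
theorem cPE6 : PE6Stmt := _root_.Pool.Agent.H31.RCQ.PE6.pe6 cPE2 cPE3 cPE4
theorem cPE7 : PE7Stmt := _root_.Pool.Agent.H31.RCQ.PE6.pe7 cPE2 cPE4 cPE5
theorem cDOM : DOMStmt := _root_.Pool.Agent.H7.RCQ.DOM.dom cPE1
theorem cR4L : R4LStmt := _root_.Pool.Agent.H62.RCQ.R4L.r4l cPE1
theorem cR3L : R3LStmt := _root_.Pool.Agent.H31.RCQ.PE6.r3l cPE1
theorem cCOA : COAStmt := _root_.Pool.Agent.H62.RCQ.COA.coa cDOM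
theorem cCO4 : CO4Stmt := _root_.Pool.Agent.H22.RCQ.CO4.co4 cR4L cPE2 cPE4
theorem cCO3 : CO3Stmt := _root_.Pool.Agent.H4.RCQ.CO3.co3 cPE1 cPE3
theorem cCOB : COBStmt := _root_.Pool.Agent.H43.RCQ.COB.cob cCO4 cCO3
theorem cCOM : COMStmt := _root_.Pool.Agent.H87.RCQ.COM.com cCOA cCOB cPE6 cPE7
theorem cFC : FCStmt := _root_.Pool.Agent.H87.RCQ.FC.fc cCOM cDOM cPE3
theorem cDEG : DEGStmt := _root_.Pool.Agent.H5.RCQ.DEG.deg cCOM cFC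
theorem cSTAR : STARStmt := _root_.Pool.Agent.H62.RCQ.STAR.star cCOM
theorem cAS : ASStmt := _root_.Pool.Agent.H5.RCQ.AS.as
theorem cAC : ACStmt := _root_.Pool.Agent.H5.RCQ.AC.ac cDOM
theorem cAB : ABStmt := _root_.Pool.Agent.H5.RCQ.AB.ab cAC cDEG cSTAR
theorem cAL : ALStmt := _root_.Pool.Agent.H5.RCQ.AL.al
theorem cAK : AKStmt := _root_.Pool.Agent.H5.RCQ.AK.ak
theorem cAZ : AZStmt := _root_.Pool.Agent.H87.RCQ.AZ.az cAS cAB cAL cAK cPE1 cPE3 cPE4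
theorem cAT : ATStmt := _root_.Pool.Agent.H7.RCQ.AT.aT cAZ cAS cAL cPE1 cPE2
theorem cAKEY : AKEYStmt := _root_.Pool.Agent.H5.RCQ.AKEY.akey cCOM cAT
theorem cAF : AFStmt := _root_.Pool.Agent.H5.RCQ.AF.af
theorem cAE : AEStmt := _root_.Pool.Agent.H7.RCQ.AE.aE cPE6 cPE7 cAB cAS
theorem cAFF : AFFStmt := _root_.Pool.Agent.H5.RCQ.AFF.aff cAF cAE
theorem cA5 : A5Stmt := _root_.Pool.Agent.H5.RCQ.A5.a5 cCOA cCOB
theorem cAN0 : AN0Stmt := _root_.Pool.Agent.H5.RCQ.AN0.an0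
theorem cA3P : A3PStmt := _root_.Pool.Agent.H76.RCQ.A3P.a3p cAS cAC cAB cAT cAKEY cAF cAFF cA5 cAN0
theorem cA2I : A2IStmt := _root_.Pool.Agent.H13.RCQ.A2I.a2i cAS cPE2 cPE3 cAKEY cAF cAE cAK cAC cAB
theorem cA2F : A2FStmt := _root_.Pool.Agent.H13.RCQ.A2F.a2f cPE2 cPE4 cAKEY cAF cAE cAL cAK cAC cAB
theorem cA2N : A2NStmt := _root_.Pool.Agent.H13.RCQ.A2N.a2n cPE2 cPE4 cAKEY cAL cAK cAC cAB
theorem cA2B : A2BStmt := _root_.Pool.Agent.H42.RCQ.a2b cAKEY cAK cAC cAS cAT cPE2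
theorem cA : AStmt := _root_.Pool.Agent.H5.RCQ.A.a cA3P cA2I cA2F cA2N cA2B cAT
theorem cGL : GLStmt := _root_.Pool.Agent.H53.RCQ.GL.gl
theorem cGC : GCStmt := _root_.Pool.Agent.H31.RCQ.GC.gc cGL
theorem cLF : LFStmt := _root_.Pool.Agent.H6.RCQ.LF.lf
theorem cB6P : B6PStmt := _root_.Pool.Agent.H87.RCQ.B6P.b6p cCOB
theorem cB12 : B12Stmt := _root_.Pool.Agent.H22.RCQ.B12.b12 cPE1 cPE3 cPE4
theorem cBK5 : BK5Stmt := _root_.Pool.Agent.H65.RCQ.R3N.bk5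
theorem cB10 : B10Stmt := _root_.Pool.Agent.H83.RCQ.B10.b10 cB6P cB12 cBK5 cSTAR cGC cLF
theorem cRC : RCStmt := _root_.Pool.Agent.H65.RCQ.RC.rc
theorem cR5A : R5AStmt := _root_.Pool.Agent.H65.RCQ.R5A.r5a cR4L cPE2 cPE4
theorem cR4B : R4BStmt := _root_.Pool.Agent.H65.RCQ.R4B.r4b cR4L cPE2 cPE1
theorem cR4A : R4AStmt := _root_.Pool.Agent.H65.RCQ.R4B.r4a cR4B
theorem cRM1 : RM1Stmt := _root_.Pool.Agent.H62.RCQ.RM1.rm1 cPE1 cPE2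
theorem cRM2 : RM2Stmt := _root_.Pool.Agent.H83.RCQ.RM2.rm2
theorem cR3A : R3AStmt := _root_.Pool.Agent.H87.RCQ.R3A.r3a cR3L cPE3
theorem cR5N : R5NStmt := _root_.Pool.Agent.H65.RCQ.RC.r5n cR5A cRC
theorem cR4N : R4NStmt := _root_.Pool.Agent.H65.RCQ.RC.r4n cR4A cR5A cR4B cRC
theorem cR3N : R3NStmt := _root_.Pool.Agent.H65.RCQ.R3N.r3n cR3A cRC
theorem cR3E : R3EStmt := _root_.Pool.Agent.H65.RCQ.R3N.r3e cR3A cRC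
theorem cBB : BBStmt := _root_.Pool.Agent.H42.RCQ.bb cB10 cGC cLF cR4N cR3N
theorem cE10 : E10Stmt := _root_.Pool.Agent.H31.RCQ.E9.e10 cR5A cRM1 cRC
theorem cE9 : E9Stmt := _root_.Pool.Agent.H31.RCQ.E9.e9 cR5A cRM1 cRM2 cRC
theorem cE8A : E8AStmt := _root_.Pool.Agent.H31.RCQ.E9.e8a cR5N cR4N cR4A cRM1 cRM2 cRC
theorem cT8A : T8AStmt := _root_.Pool.Agent.H4.RCQ.T8A.t8a cR3A cRC cPE1
theorem cT8B : T8BStmt := _root_.Pool.Agent.H83.RCQ.T8B.t8b cT8A cPE1 cPE2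
theorem cT8C : T8CStmt := _root_.Pool.Agent.H22.RCQ.T8C.t8c cPE7 cT8A
theorem cE8B : E8BStmt := _root_.Pool.Agent.H7.RCQ.E8B.e8b cT8A cT8B cT8C
theorem cE7 : E7Stmt := _root_.Pool.Agent.H7.RCQ.E7.e7 cB10 cGC cLF cE10 cE9 cE8A cE8B cR4N cR3N cR3E
theorem cES6 : ES6Stmt := _root_.Pool.Agent.H6.RCQ.ES6.es6 cE7 cLF cR4N cR3N
theorem cGA : GAStmt := _root_.Pool.Agent.H80.RCQ.GA.ga
theorem cGB : GBStmt := _root_.Pool.Agent.H43.RCQ.GB.gb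
theorem cGT : GTStmt := _root_.Pool.Agent.H70.RCQ.GT.gt
theorem cTE : TEStmt := _root_.Pool.Agent.H37.RCQ.TE.te cGA cGB cGT
theorem cQT : QTStmt := _root_.Pool.Agent.H37.RCQ.QQ.qt cGA cGB cGT
theorem cQE : QEStmt := _root_.Pool.Agent.H37.RCQ.QQ.qe cGA cGB cGT
theorem cCI : CIStmt := _root_.Pool.Agent.H80.RCQ.GA.ci
theorem cCR : CRStmt := _root_.Pool.Agent.H76.RCQ.CR.cr
theorem cW6S : W6SStmt := _root_.Pool.Agent.H79.RCQ.W6S.w6s cTE cQT cPE1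
theorem cK6A : K6AStmt := _root_.Pool.Agent.H4.RCQ.K6A.k6a
theorem cK6B : K6BStmt := _root_.Pool.Agent.H33.RCQ.K6B.k6b
theorem cK6D : K6DStmt := _root_.Pool.Agent.H33.RCQ.K6D.k6d
theorem cK6E : K6EStmt := _root_.Pool.Agent.H33.RCQ.K6E.k6e
theorem cK6F : K6FStmt := _root_.Pool.Agent.H84.RCQ.K6F.k6f
theorem cD6 : D6Stmt := _root_.Pool.Agent.H67.RCQ.D6.d6 cCI cCR cW6S cGL cK6A cK6B cK6D cK6E cK6F
theorem cK23 : K23Stmt := _root_.Pool.Agent.H80.RCQ.K23.k23 cQE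
theorem cW5S : W5SStmt := _root_.Pool.Agent.H44.RCQ.W5S.w5s cTE cQE
theorem cK5B : K5BStmt := _root_.Pool.Agent.H44.RCQ.K5B.k5b cK23
theorem cK5C : K5CStmt := _root_.Pool.Agent.H45.RCQ.K5C.k5c
theorem cK5D : K5DStmt := _root_.Pool.Agent.H45.RCQ.K5D.k5d cK23
theorem cK5E : K5EStmt := _root_.Pool.Agent.H45.RCQ.K5E.k5e
theorem cK5F : K5FStmt := _root_.Pool.Agent.H84.RCQ.K5F.k5f
theorem cK5G : K5GStmt := _root_.Pool.Agent.H84.RCQ.K5G.k5g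
theorem cD5 : D5Stmt := _root_.Pool.Agent.H67.RCQ.D5.d5 cCI cCR cW5S cGL cK5B cK5C cK5D cK5E cK5F cK5G
theorem cCV1 : CV1Stmt := _root_.Pool.Agent.H53.RCQ.CV1.cv1
theorem cCV2 : CV2Stmt := _root_.Pool.Agent.H30.RCQ.CV.cv2
theorem cCV3 : CV3Stmt := _root_.Pool.Agent.H30.RCQ.CV.cv3
theorem cCV4 : CV4Stmt := _root_.Pool.Agent.H30.RCQ.CV.cv4
theorem cC2 : C2Stmt := _root_.Pool.Agent.H6.RCQ.C2.c2 cCV1 cCV2 cCV3 cCV4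
theorem cC3 : C3Stmt := _root_.Pool.Agent.H76.RCQ.C3.c3 cCV1 cCV2 cCV3 cCV4
theorem cTP1 : TP1Stmt := _root_.Pool.Agent.H38.RCQ.TP1.tp1
theorem cTP2 : TP2Stmt := _root_.Pool.Agent.H38.RCQ.TP2.tp2
theorem cTP3 : TP3Stmt := _root_.Pool.Agent.H80.RCQ.TP3.tp3
theorem cTP4 : TP4Stmt := _root_.Pool.Agent.H79.RCQ.TP4.tp4
theorem cTP5 : TP5Stmt := _root_.Pool.Agent.H70.RCQ.TP5.tp5 cTP1 cTP2 cTP3 cTP4
theorem cSM1 : SM1Stmt := _root_.Pool.Agent.H80.RCQ.SM1.sm1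
theorem cSM2 : SM2Stmt := _root_.Pool.Agent.H44.RCQ.SM2.sm2
theorem cSM3 : SM3Stmt := _root_.Pool.Agent.H28.RCQ.SM3.sm3 cSM1 cSM2
theorem cSM4 : SM4Stmt := _root_.Pool.Agent.H28.RCQ.SM4.sm4 cSM1 cSM3
theorem cSM5 : SM5Stmt := _root_.Pool.Agent.H80.RCQ.SM5.sm5
theorem cSM6 : SM6Stmt := _root_.Pool.Agent.H80.RCQ.SM6.sm6
theorem cSM7 : SM7Stmt := _root_.Pool.Agent.H80.RCQ.SM7.sm7
theorem cSM8 : SM8Stmt := _root_.Pool.Agent.H53.RCQ.SM8.sm8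
theorem cSM9 : SM9Stmt := _root_.Pool.Agent.H80.RCQ.SM9.sm9 cSM4 cSM5 cSM6 cSM7 cSM8
theorem cTPG : TPGStmt := _root_.Pool.Agent.H6.RCQ.TPG.tpg cTP5 cSM9
theorem cCH : CHStmt := _root_.Pool.Agent.H79.RCQ.CH.ch
theorem cLG1 : LG1Stmt := _root_.Pool.Agent.H42.RCQ.lg1
theorem cLG2 : LG2Stmt := _root_.Pool.Agent.H42.RCQ.lg2
theorem cLO : LOStmt := _root_.Pool.Agent.H42.RCQ.lo
theorem cLB : LBStmt := _root_.Pool.Agent.H28.RCQ.LB.lb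
theorem cUB : UBStmt := UB.ub cA cBB cC3 cES6 cD6 cD5 cC2

end Pool.Agent.H6.RCQ.Chain
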