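import Pool.Agent.H39.RCPlanar

/-!
# Project RCQ (MP_1c6977_co): definitions

`HasMinor`, `Con` (connected vertex set), `Lnk` (linked to a vertex by a connected set avoiding `X`)
and `Rch` (adjacent, or common neighbour outside `A`) come from `Pool.Agent.H39`.
-/

set_option autoImplicit false

namespace Pool.Agent.H6.RCQ

open Pool.Agent.H39.RC
open Classical

variable {V : Type}

/-- `a, b, c, d` lie in this cyclic order around `x`: disjoint connected sets avoiding `x` cannot
join `a` to `c` and `b` to `d` -/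
def Cr (G : SimpleGraph V) (x a b c d : V) : Prop :=
  ∀ P Q : Set V, Con G P → Con G Q → x ∉ P → x ∉ Q → a ∈ P → c ∈ P → b ∈ Q → d ∈ Q →
    (P ∩ Q).Nonempty

/-- the consequences of planarity that are used: no `K₃,₃` and no `K₅` minor, at most `3 k - 6`
edges in every minor with `k ≥ 3` vertices (ordered pairs are counted), and a cyclic order of the
neighbours of every vertex -/
structure PG (G : SimpleGraph V) : Prop where
  k33 : ¬ HasMinor G (completeBipartiteGraph (Fin 3) (Fin 3))
  k5 : ¬ HasMinor G (⊤ : SimpleGraph (Fin 5))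
  cnt : ∀ (k : ℕ) (B : Fin k → Set V), 3 ≤ k → (∀ i, Con G (B i)) →
    (∀ i j, i ≠ j → Disjoint (B i) (B j)) →
    (Finset.univ.filter (fun e : Fin k × Fin k => e.1 ≠ e.2 ∧
      ∃ a ∈ B e.1, ∃ b ∈ B e.2, G.Adj a b)).card + 12 ≤ 6 * k
  cyc : ∀ x, ∃ σ : V → ℕ, (∀ a b, G.Adj x a → G.Adj x b → σ a = σ b → a = b) ∧
    ∀ a b c d, G.Adj x a → G.Adj x b → G.Adj x c → G.Adj x d →
      σ a < σ b → σ b < σ c → σ c < σ d → Cr G x a b c d

/-- `u` and `v` are adjacent, or disagree on a common neighbour outside `O` -/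
def LR {p : ℕ} (G : SimpleGraph V) (lab : V → V → Fin p) (O : Set V) (u v : V) : Prop :=
  G.Adj u v ∨ ∃ w, w ∉ O ∧ G.Adj w u ∧ G.Adj w v ∧ lab w u ≠ lab w v

/-- a relative clique `R` in a planar graph whose vertices label their neighbours with `p` labels -/
structure Cfg (p : ℕ) (G : SimpleGraph V) (lab : V → V → Fin p) (R : Finset V) : Prop where
  pg : PG G
  lk : ∀ u ∈ R, ∀ v ∈ R, u ≠ v → LR G lab ∅ u v

/-- the label-free version -/
structure Lf (G : SimpleGraph V) (R : Finset V) : Prop where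
  pg : PG G
  lk : ∀ u ∈ R, ∀ v ∈ R, u ≠ v → Rch G ∅ u v

/-- neighbours of `x` in `R` -/
noncomputable def D (G : SimpleGraph V) (R : Finset V) (x : V) : Finset V :=
  R.filter (fun v => G.Adj x v)

/-- non-neighbours of `x` in `R` (without `x`) -/
noncomputable def U (G : SimpleGraph V) (R : Finset V) (x : V) : Finset V :=
  R.filter (fun v => v ≠ x ∧ ¬ G.Adj x v)

/-- common neighbours in `R` -/
noncomputable def CN (G : SimpleGraph V) (R : Finset V) (x y : V) : Finset V :=
  R.filter (fun v => G.Adj x v ∧ G.Adj y v)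

/-- the neighbours of `x` in `R` that are equal or adjacent to `z` -/
noncomputable def CC (G : SimpleGraph V) (R : Finset V) (x z : V) : Finset V :=
  R.filter (fun t => G.Adj x t ∧ (t = z ∨ G.Adj z t))

/-- the neighbours of `x` in `R` that are not adjacent or equal to `y` -/
noncomputable def PB (G : SimpleGraph V) (R : Finset V) (x y : V) : Finset V :=
  R.filter (fun v => G.Adj x v ∧ ¬ G.Adj y v ∧ v ≠ y)

/-- the vertices of `R` that are not adjacent or equal to `x` or `y` -/
noncomputable def II (G : SimpleGraph V) (R : Finset V) (x y : V) : Finset V :=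
  R.filter (fun v => v ≠ x ∧ v ≠ y ∧ ¬ G.Adj x v ∧ ¬ G.Adj y v)

/-- `1` if `x ∈ R`, `0` otherwise -/
noncomputable def ir (R : Finset V) (x : V) : ℕ := if x ∈ R then 1 else 0

/-- all codegrees are at most 4 -/
def Co4 (G : SimpleGraph V) (R : Finset V) : Prop := ∀ x y, x ≠ y → (CN G R x y).card ≤ 4

/-- all degrees (to `R`) are at most `d` -/
def DegLe (G : SimpleGraph V) (R : Finset V) (d : ℕ) : Prop := ∀ x, (D G R x).card ≤ d

/-- `r` and `s` are joined by a connected set avoiding `X` -/
def Jn (G : SimpleGraph V) (X : Set V) (r s : V) : Prop :=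
  ∃ Z : Set V, r ∈ Z ∧ s ∈ Z ∧ Con G Z ∧ ∀ z ∈ Z, z ∉ X

/-! ### Two poles and their common neighbours -/

/-- two disjoint connected sets (poles) `P`, `Q` and a set `S` of common neighbours -/
structure Pol (G : SimpleGraph V) (P Q : Set V) (S : Finset V) : Prop where
  cP : Con G P
  cQ : Con G Q
  dis : Disjoint P Q
  oP : ∀ s ∈ S, s ∉ P
  oQ : ∀ s ∈ S, s ∉ Q
  aP : ∀ s ∈ S, ∃ z ∈ P, G.Adj z s
  aQ : ∀ s ∈ S, ∃ z ∈ Q, G.Adj z s

/-- the poles are adjacent -/
def PAdj (G : SimpleGraph V) (P Q : Set V) : Prop := ∃ a ∈ P, ∃ b ∈ Q, G.Adj a b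

/-- poles and common neighbours -/
def XX (P Q : Set V) (S : Finset V) : Set V := P ∪ Q ∪ ↑S

/-- `s` and `t` are consecutive: adjacent, or both attached to a component of the rest -/
def EJ (G : SimpleGraph V) (P Q : Set V) (S : Finset V) (s t : V) : Prop :=
  s ∈ S ∧ t ∈ S ∧ s ≠ t ∧
    (G.Adj s t ∨ ∃ v, Lnk G (XX P Q S) v s ∧ Lnk G (XX P Q S) v t)

/-- a connected set `O` and neighbours `M` of `O` that are pairwise linked avoiding `O` -/
structure CoF (G : SimpleGraph V) (O : Set V) (M : Finset V) : Prop where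
  con : Con G O
  out : ∀ m ∈ M, m ∉ O
  adj : ∀ m ∈ M, ∃ z ∈ O, G.Adj z m
  lk : ∀ m ∈ M, ∀ m' ∈ M, m ≠ m' → Rch G O m m'

/-! ### Case A: two vertices with at least five common neighbours -/

/-- the setting of Case A -/
structure CA (p : ℕ) (G : SimpleGraph V) (lab : V → V → Fin p) (R : Finset V) (x y : V) :
    Prop where
  cfg : Cfg p G lab R
  two : 2 ≤ p
  card : R.card = 3 * p ^ 2 + p + 2
  ne : x ≠ y
  five : 5 ≤ (CN G R x y).card
  max : ∀ x' y', x' ≠ y' → (CN G R x' y').card ≤ (CN G R x y).card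

/-- `w` is attached to `a` in the rest of the graph -/
def At (G : SimpleGraph V) (R : Finset V) (x y w a : V) : Prop :=
  Lnk G (XX {x} {y} (CN G R x y)) w a

/-- the common neighbours attached to private neighbours -/
noncomputable def PP (G : SimpleGraph V) (R : Finset V) (x y : V) : Finset V :=
  (CN G R x y).filter (fun a => ∃ w, (w ∈ PB G R x y ∨ w ∈ PB G R y x) ∧ At G R x y w a)

/-- the near common neighbours -/
noncomputable def NN (G : SimpleGraph V) (R : Finset V) (x y : V) : Finset V :=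
  (CN G R x y).filter (fun a => a ∈ PP G R x y ∨ ∃ a' ∈ PP G R x y, G.Adj a a')

/-- the far common neighbours -/
noncomputable def FF (G : SimpleGraph V) (R : Finset V) (x y : V) : Finset V :=
  (CN G R x y) \ NN G R x y

/-! ### Case B: all codegrees at most four -/

/-- the setting of Case B -/
structure CB (p : ℕ) (G : SimpleGraph V) (lab : V → V → Fin p) (R : Finset V) : Prop where
  cfg : Cfg p G lab R
  two : 2 ≤ p
  card : R.card = 3 * p ^ 2 + p + 2
  co : Co4 G R

/-- the label-free setting with `16` vertices and all codegrees at most four -/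
structure L16 (G : SimpleGraph V) (R : Finset V) : Prop where
  lf : Lf G R
  card : R.card = 16
  co : Co4 G R

/-- the label-free setting with `16` vertices, degrees at most `d ≤ 6`, closed codegrees at most
three -/
structure S6 (G : SimpleGraph V) (R : Finset V) (d : ℕ) : Prop where
  lf : Lf G R
  card : R.card = 16
  deg : DegLe G R d
  cc : ∀ x z, x ≠ z → (CC G R x z).card ≤ 3

/-- `t` is bad for `u`, `v` (seen from `x`): no common neighbour of `u` and `v` other than `x` is
equal or adjacent to `t` -/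
def Bad (G : SimpleGraph V) (x u v t : V) : Prop :=
  ∀ c, c ≠ x → G.Adj u c → G.Adj v c → ¬ (c = t ∨ G.Adj c t)

/-- `t 0, ..., t (n-1)` is the cyclic order of `Dx` around `x` -/
structure Circ (G : SimpleGraph V) (x : V) (Dx : Finset V) (n : ℕ) (t : ℕ → V) : Prop where
  inj : ∀ i < n, ∀ j < n, t i = t j → i = j
  mem : ∀ i < n, t i ∈ Dx
  all : ∀ d ∈ Dx, ∃ i < n, t i = d
  cr : ∀ i j k l, i < j → j < k → k < l → l < n → Cr G x (t i) (t j) (t k) (t l)

end Pool.Agent.H6.RCQ
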